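import Pool.Agent.Helper87.NSL.Cpt
import Pool.Agent.Helper81.CPY.Evn
import Pool.Agent.Helper81.MT.Trn
import Pool.Agent.Helper69.LAB.Lab

/-! COPIES FOR ALL TYPES, transversality of all truncations. -/

set_option autoImplicit false

namespace Pool.Agent.Helper87.NJ

open Finset Filter Topology Matrix Pool.Agent.Helper69.RK Pool.Agent.Helper31.EC Pool.Agent.Helper31.EC.Sp
open Pool.Agent.Helper40.EL Pool.Agent.Helper84.MT Pool.Agent.Helper38.NSL Pool.Agent.Helper81.CPY
open Pool.Agent.Helper87.NSL

noncomputable section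

variable {S T : Sp} {M D : ℕ} {κ : Type}

/-- independence in the truncated space -/
theorem I_pjb (p : Pj T S) (V : ∀ k, Setoid (T.F k).Ω) (C : ∀ k, Setoid (S.F k).Ω) (b : ℝ) (h0 : 0 < b) (k : ℕ)
    (h : I (fc (V k)) (p.fp k).top ((p.fp k).map (fc (C k))) = 0) :
    I (fc (F := (T.chg T.tr b h0).F k) (V k)) ((pjb p S.tr b h0).fp k).top
      (((pjb p S.tr b h0).fp k).map (fc (F := (S.chg S.tr b h0).F k) (C k))) = 0 := by
  have h1 := Pool.Agent.Helper69.LAB.I_chg_top (F := T.F k) b h0 (V k) (Setoid.ker (p.π k)) (p.pb C k)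
  exact h1.trans h

/-- ALL COPIES AT ONCE, transversality of all truncations -/
theorem exists_cpb (n : ℕ) : ∀ (l : Fin n → Lab S), ∃ (W : Sp) (p : Pj W S) (q : ∀ i, Pj W (l i).sp),
    (∀ i k w, (W.F k).μ w ≠ 0 → (l i k).p.π ((q i).π k w) = p.π k w) ∧
    ∀ (b : ℝ) (h0 : 0 < b) (M D : ℕ) (Q : (S.chg S.tr b h0).VV M) (K g₀ : ℝ) (κ : Type)
      (U : κ → ∀ k, Setoid (S.F k).Ω)
      (C : Fin n → ∀ k, Setoid (S.F k).Ω), (∀ i, ∀ᶠ k in UF, (l i k).leak (fc (C i k)) = 0) →
      NHEt (S := S.chg S.tr b h0) Q D (Sum.elim U C) K g₀ →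
      NHEt (S := W.chg W.tr b h0) ((pjb p S.tr b h0).vv Q) D (Sum.elim (fun i => p.pb (U i))
        (fun i k => (q i).pb (l i).V k ⊓ p.pb (C i) k)) K g₀ := by
  classical
  induction n with
  | zero =>
    intro l
    refine ⟨S, Pj.id S, fun i => i.elim0, fun i => i.elim0, fun b h0 M D Q K g₀ κ U C _ h => ?_⟩
    have h' : NHEt (S := S.chg S.tr b h0) ((pjb (Pj.id S) S.tr b h0).vv Q) D (Sum.elim U C) K g₀ := h
    refine h'.ren (fun o => match o with
      | Sum.inl i => Sum.inl i
      | Sum.inr i => Sum.inr i) (Eventually.of_forall ?_)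
    intro k o ω ω' _ _ _ hW
    rcases o with i | i
    · exact hW
    · exact i.elim0
  | succ n ih =>
    intro l
    obtain ⟨W, p, q, h1, h2⟩ := ih (fun i => l i.castSucc)
    set A : AmD W (l (Fin.last n)).sp := amS p (l (Fin.last n)).pj with hA
    set qq : ∀ i, Pj A.sp (l i).sp := fun i => Fin.lastCases (motive := fun i => Pj A.sp (l i).sp) A.p2
      (fun i => A.p1.comp (q i)) i with hqq
    have hq1 : qq (Fin.last n) = A.p2 := by rw [hqq]; exact Fin.lastCases_last
    have hq2 : ∀ i : Fin n, qq i.castSucc = A.p1.comp (q i) := fun i => by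
      rw [hqq]
      exact Fin.lastCases_castSucc _
    refine ⟨A.sp, A.p1.comp p, qq, ?_, ?_⟩
    · intro i
      refine Fin.lastCases ?_ (fun i => ?_) i
      · intro k w hw
        have e1 : (qq (Fin.last n)).π k w = A.p2.π k w := by rw [hq1]
        exact (congrArg (l (Fin.last n) k).p.π e1).trans (amS_eq p (l (Fin.last n)).pj k w hw).symm
      · intro k w hw
        have e1 : (qq i.castSucc).π k w = (A.p1.comp (q i)).π k w := by rw [hq2]
        exact (congrArg (l i.castSucc k).p.π e1).trans (h1 i k _ (A.p1.supp k w hw))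
    · intro b h0 M D Q K g₀ κ U C hC h
      -- the last condition as a member of the other family
      have a1 : NHEt (S := S.chg S.tr b h0) Q D
          (Sum.elim (Sum.elim U (fun _ : Unit => C (Fin.last n))) (fun i : Fin n => C i.castSucc)) K g₀ := by
        set f : Fin (n + 1) → (κ ⊕ Unit) ⊕ Fin n := fun i => Fin.lastCases (motive := fun _ => (κ ⊕ Unit) ⊕ Fin n)
          (Sum.inl (Sum.inr ())) (fun i => Sum.inr i) i with hf
        have hf1 : f (Fin.last n) = Sum.inl (Sum.inr ()) := by rw [hf]; exact Fin.lastCases_last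
        have hf2 : ∀ i : Fin n, f i.castSucc = Sum.inr i := fun i => by rw [hf]; exact Fin.lastCases_castSucc _
        refine h.ren (Sum.elim (fun i => Sum.inl (Sum.inl i)) f) (Eventually.of_forall ?_)
        intro k o ω ω' _ _ _ hW
        rcases o with i | i
        · exact hW
        · revert hW
          refine Fin.lastCases ?_ (fun i => ?_) i
          · intro hW
            show Sum.elim (Sum.elim U (fun _ : Unit => C (Fin.last n))) (fun i : Fin n => C i.castSucc)
              (f (Fin.last n)) k ω ω'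
            rw [hf1]
            exact hW
          · intro hW
            show Sum.elim (Sum.elim U (fun _ : Unit => C (Fin.last n))) (fun i : Fin n => C i.castSucc)
              (f i.castSucc) k ω ω'
            rw [hf2]
            exact hW
      have a2 := h2 b h0 M D Q K g₀ (κ ⊕ Unit) (Sum.elim U (fun _ : Unit => C (Fin.last n)))
        (fun i : Fin n => C i.castSucc) (fun i => hC i.castSucc) a1
      have a3 := a2.copy_at (Sum.inl (Sum.inr ())) (pjb A.p1 W.tr b h0)
        (fun k => A.p2.pb (l (Fin.last n)).V k ⊓ A.p1.pb (p.pb (C (Fin.last n))) k) (by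
        filter_upwards [hC (Fin.last n)] with k hk
        have h5 := amS_indep p (l (Fin.last n)) (C (Fin.last n)) k hk
        refine I_pjb A.p1 (fun k => A.p2.pb (l (Fin.last n)).V k ⊓ A.p1.pb (p.pb (C (Fin.last n))) k)
          (p.pb (C (Fin.last n))) b h0 k ?_
        rw [fc_inf]
        exact (I_sup_self _ _ _).trans h5)
      refine a3.ren (fun o => match o with
        | Sum.inl (Sum.inl i) => Sum.inl i
        | Sum.inl (Sum.inr _) => Sum.inr (Fin.last n)
        | Sum.inr i => Sum.inr i.castSucc) (Eventually.of_forall ?_)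
      intro k o ω ω' _ _ _ hW
      rcases o with (i | i) | i
      · rw [Function.update_of_ne (by simp)] at hW
        exact hW
      · have hi : i = () := rfl
        subst hi
        rw [Function.update_self] at hW
        show (qq (Fin.last n)).pb (l (Fin.last n)).V k ω ω' ∧ p.pb (C (Fin.last n)) k (A.p1.π k ω) (A.p1.π k ω')
        rw [hq1]
        exact hW
      · rw [Function.update_of_ne (by simp)] at hW
        show (qq i.castSucc).pb (l i.castSucc).V k ω ω' ∧ p.pb (C i.castSucc) k (A.p1.π k ω) (A.p1.π k ω')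
        rw [hq2]
        exact hW

end

end Pool.Agent.Helper87.NJ
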