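import Pool.Agent.Helper15.FST.St
import Pool.Agent.Helper87.NJ.Cpb
import Pool.Agent.Helper66.NJ.Cnt
import Pool.Agent.Helper80.SUB.Udt
import Pool.Agent.Helper81.CP3.Pre
import Pool.Agent.Helper87.NSL.St

/-! NSLJ (text 36936 of helper66, rows of helper87): definitions and rows. -/

set_option autoImplicit false

namespace Pool.Agent.Helper87.NJ

open Finset Filter Topology Matrix Pool.Agent.Helper69.RK Pool.Agent.Helper31.EC Pool.Agent.Helper31.EC.Sp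
open Pool.Agent.Helper40.EL Pool.Agent.Helper89.LX Pool.Agent.Helper84.MT
open Pool.Agent.Helper36.AM (MCl STu STO)
open Pool.Agent.Helper3.LF (Mon)
open Pool.Agent.Helper38.NSL (NI NHEt gxF)
open Pool.Agent.Helper29.MX
open Pool.Agent.Helper66.NJ (Kn1 zFD)
open Pool.Agent.Helper87.NSL (FmG CostP)
open Pool.Agent.Helper76.ADP (RowsF rsp rpj rfr)
open Pool.Agent.Helper76.THK (e00)
open Pool.Agent.Helper80.SUB (Sub ptop)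
open Pool.Agent.Helper15.FST (gam JT Ful)

noncomputable section

variable {S T : Sp} {M N D : ℕ} {E : ℕ → ℕ} {ι : Type}

/-! ### definitions -/

/-- ONE FULL FORM of level `1`, known to `V` -/
structure Fuf (V : ∀ k, Setoid (S.F k).Ω) (Q : S.VV M) (D : ℕ)
    (G : ∀ k, (S.F k).Ω → Matrix (Mon M D) (Mon M D) ℝ) : Prop where
  kn : ∀ᶠ k in UF, Kn1 (V k) (G k)
  fm : FmG Q (fun k => zFD (V k) (G k))
  fu : vol Q D (fun k => zFD (V k) (G k)) ≤ H (up1 (Lab.ofZ V) (Q.dg 1))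

/-- PRE-OBJECTS: visible labels without leak at the windows of the types, with one full form -/
structure PO (s : MSys S N E ι) (V : ∀ k, Setoid (S.F k).Ω) : Prop where
  lk : ∀ i, Nul S fun k => ((Lab.ofZ V) k).leak ((s.lf i).win 0 k)
  vs : PLe (fun k => fc (V k)) (pcd s.Q)
  full : ∃ (D : ℕ) (G : ∀ k, (S.F k).Ω → Matrix (Mon N D) (Mon N D) ℝ), 1 ≤ D ∧ Fuf V s.Q D G

/-- FORM OF THE LEVEL `b` with the cost property (for some system with the same point, of degree `g'`) -/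
def Lvl (V : ∀ k, Setoid (S.F k).Ω) (Q : S.VV N) (g' D : ℕ) (b : ℝ) (h0 : 0 < b)
    (G : ∀ k, (S.F k).Ω → Matrix (Mon N D) (Mon N D) ℝ) : Prop :=
  ∃ (r' : ℕ) (τ : MSys (S.chg S.tr b h0) N (lin g') (Fin r')), τ.Q = Q.chg S.tr b h0 ∧
    (∀ᶠ k in UF, Kn1 (F := (S.chg S.tr b h0).F k) (V k) (G k)) ∧
    CostP τ D 0 (fun k => zFD (F := (S.chg S.tr b h0).F k) (V k) (G k)) ∧
    FmG τ.Q (fun k => zFD (F := (S.chg S.tr b h0).F k) (V k) (G k)) ∧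
    vol τ.Q D (fun k => zFD (F := (S.chg S.tr b h0).F k) (V k) (G k)) ≤
      H (up1 (Lab.ofZ (S := S.chg S.tr b h0) V) (τ.Q.dg 1))

/-- FORMS OF ALL LEVELS, all large degrees -/
def LvC (V : ∀ k, Setoid (S.F k).Ω) (Q : S.VV N) (g' D₁ : ℕ) : Prop :=
  ∀ D, D₁ ≤ D → ∀ b : ℚ, ∀ h0 : (0 : ℝ) < b, (b : ℝ) ≤ 1 → ∃ G, Lvl V Q g' D b h0 G

/-- the level profile of the label is at least `f` -/
def Pfl (f : ℝ → ℝ) (s : MSys S N E ι) (V : ∀ k, Setoid (S.F k).Ω) : Prop :=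
  ∀ (T : Sp) (p : Pj T S) (A : ∀ k, (T.F k).Ω → Prop) (hA : 0 < ul (T.pr A)) (b : ℝ), 0 ≤ b → b ≤ 1 →
    f b ≤ H (up1 (Lab.ofZ (S := Sp.im p A) V) ((s.im p A hA).Q.dg b))

/-- the profile `(ρ, κ)` -/
def pf (E : Fin N → ℝ) (ρ κ b : ℝ) : ℝ := if b ≤ ρ then N * b - gam E b else N * ρ - gam E ρ + κ * (b - ρ)

/-- AUXILIARY SPACES: extensions of the space `S` with labels `V j` which are independent of `S` given the windows -/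
structure Axl (s : MSys S N E ι) (p : Pj T S) (V : ι → ∀ k, Setoid (T.F k).Ω) : Prop where
  ni : ∀ j, NI (fun k => fc (V j k)) (ptop p) (((s.lf j).win 0).pull p)

/-! ### rows -/

/-- [FDG] (helper76) one full form ==> rows for every split -/
def ROW_FDG (N : ℕ) : Prop := (∀ m, m < N → STu m) → ∀ (S : Sp) (V : ∀ k, Setoid (S.F k).Ω) (Q : S.VV N) (D : ℕ)
  (G : ∀ k, (S.F k).Ω → Matrix (Mon N D) (Mon N D) ℝ), 1 ≤ D → Fuf V Q D G →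
    ∃ (T : Sp) (p : Pj T S) (W : ∀ k, Setoid (T.F k).Ω) (D' : ℕ) (o : ∀ k, (T.F k).Ω → Equiv.Perm (Fin N))
      (w : ∀ k, (T.F k).Ω → Fin N → ℝ), (∀ k, W k ≤ p.pb V k) ∧
      PLe (fun k => fc (W k)) (fun k => fc (p.pb V k)) ∧ 1 ≤ D' ∧
      (∀ ε : ℝ, 0 < ε → Typ (S := T) fun k ω => ∀ i j : Fin N, i ≤ j → w k ω i ≤ w k ω j + ε) ∧
      ∀ (v q : ℕ) (hvq : v + q = N), (∀ ε : ℝ, 0 < ε → Typ (S := T) fun k ω => ∀ j : Fin v,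
        w k ω (e00 hvq (Sum.inl j)) ≤ ε) →
          ∃ f, RowsF W (p.vv Q) D' (fun k ω => (e00 hvq).trans (o k ω)) f (fun k ω j => w k ω (e00 hvq (Sum.inr j)))

/-- [FUI] (helper18) one full form on events -/
def ROW_FUI : Prop := ∀ (N D : ℕ) (S T : Sp) (V : ∀ k, Setoid (S.F k).Ω) (Q : S.VV N)
  (G : ∀ k, (S.F k).Ω → Matrix (Mon N D) (Mon N D) ℝ) (p : Pj T S) (A : ∀ k, (T.F k).Ω → Prop)
  (_ : 0 < ul (T.pr A)), Fuf V Q D G → Fuf (S := Sp.im p A) V (Q.im p A) D G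

/-- [RFR] (helper18) fresh digits in the label of the rows -/
def ROW_RFR : Prop := ∀ (N v q D n : ℕ) (S : Sp) (V : ∀ k, Setoid (S.F k).Ω) (Q : S.VV N)
  (Ex : ∀ k, (S.F k).Ω → (Fin v ⊕ Fin q ≃ Fin N)) (f : ∀ k, (S.F k).Ω → Fin q → MvPolynomial (Fin N) ℝ)
  (w : ∀ k, (S.F k).Ω → Fin q → ℝ), RowsF V Q D Ex f w →
    RowsF (fun k => (rpj S n).pb V k ⊓ rfr S n k) ((rpj S n).vv Q) D (fun k ω => Ex k ((rpj S n).π k ω))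
      (fun k ω => f k ((rpj S n).π k ω)) (fun k ω => w k ((rpj S n).π k ω))

/-- [RFO] (helper81) rows over the copy at the old point, with a finite code -/
def ROW_RFO : Prop := ∀ (N v q D : ℕ) (E : ℕ → ℕ) (S W : Sp) (V : ∀ k, Setoid (S.F k).Ω) (Q : S.VV N) (l : Leaf S Q E)
  (Ex : ∀ k, (S.F k).Ω → (Fin v ⊕ Fin q ≃ Fin N)) (f : ∀ k, (S.F k).Ω → Fin q → MvPolynomial (Fin N) ℝ)
  (w : ∀ k, (S.F k).Ω → Fin q → ℝ) (p : Pj W S) (qq : Pj W (Pool.Agent.Helper81.CP2.cLb l V).sp),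
  (∀ k w', (W.F k).μ w' ≠ 0 → (Pool.Agent.Helper81.CP2.cLb l V k).p.π (qq.π k w') = p.π k w') →
  Nul S (fun k => ((Lab.ofZ V) k).leak (l.win 0 k)) → Nul S (fun k => ((Lab.ofZ V) k).leak (pcd Q k)) →
  1 ≤ D → v + q = N → RowsF V Q D Ex f w →
    ∃ (n' : ℕ) (X : ∀ k, (W.F k).Ω → Fin n') (f' : ∀ k, (W.F k).Ω → Fin q → MvPolynomial (Fin N) ℝ),
      RowsF (fun k => qq.pb (Pool.Agent.Helper81.CP2.cLb l V).V k ⊓ Setoid.ker (X k)) (p.vv Q) D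
        (fun k w' => Ex k ((qq.π k w' : _ × _).2)) f' (fun k w' => w k ((qq.π k w' : _ × _).2))

/-- [MEM] (helper80) leaves over the labels, membership of the auxiliary system -/
def ROW_MEM : Prop := ∀ (N v q D g r : ℕ) (A : MCl N), OkA N A → v + q = N → 1 ≤ D → 0 < r → ∀ (S T : Sp)
  (s : MSys S N (lin g) (Fin r)) (p : Pj T S) (V : Fin r → ∀ k, Setoid (T.F k).Ω)
  (Ex : Fin r → ∀ k, (T.F k).Ω → (Fin v ⊕ Fin q ≃ Fin N))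
  (f : Fin r → ∀ k, (T.F k).Ω → Fin q → MvPolynomial (Fin N) ℝ) (w : Fin r → ∀ k, (T.F k).Ω → Fin q → ℝ),
  A S g r s → Axl s p V → (∀ j, RowsF (V j) (p.vv s.Q) D (Ex j) (f j) (w j)) →
    ∃ (g' : ℕ) (t : MSys (rsp T q) N (lin g') (Fin r)), 1 ≤ g' ∧ t.Q = (rpj T q).vv (p.vv s.Q) ∧
      Sub s ((rpj T q).comp p) t ∧ A (rsp T q) g' r t ∧ Inv v t ∧
      ∀ j, PLe ((t.lf j).win 0) (fun k => fc ((rpj T q).pb (V j) k ⊓ rfr T q k))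

/-- [CLB] (helper52) the profile of a label of maximal profile beyond the level `ρ` -/
def ROW_CLB (N : ℕ) : Prop := (∀ m, m < N → STu m) → ∀ (S : Sp) (E : Fin N → ℝ) (ρ : ℝ) (κ g r : ℕ)
  (s : MSys S N (lin g) (Fin r)) (V : ∀ k, Setoid (S.F k).Ω), (∀ j, 0 ≤ E j ∧ E j < 1) → 0 ≤ ρ → ρ < 1 → PO s V →
  (∀ (T : Sp) (p : Pj T S) (A : ∀ k, (T.F k).Ω → Prop) (hA : 0 < ul (T.pr A)) (b : ℝ), 0 ≤ b → b ≤ ρ →
    H ((s.im p A hA).Q.dg b) ≤ N * b - gam E b) →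
  Pfl (pf E ρ κ) s V →
  (∀ (T : Sp) (p : Pj T S) (A : ∀ k, (T.F k).Ω → Prop) (hA : 0 < ul (T.pr A)),
    ¬ Pfl (pf E ρ ((κ : ℝ) + 1)) (s.im p A hA) V) →
  ∀ δ : ℝ, 0 < δ → ∃ x₀ : ℝ, 0 < x₀ ∧ ∀ x : ℝ, 0 < x → x ≤ x₀ → ρ + x ≤ 1 →
    H (up1 (Lab.ofZ V) (s.Q.dg (ρ + x))) ≤ N * ρ - gam E ρ + (κ + δ) * x

/-- [CAR] (helper66) literal visible carriers of the optimal forms of all levels and degrees -/
def ROW_CAR (N : ℕ) : Prop := ∀ A : MCl N, OkA N A → (∀ m, m < N → STu m) → ∀ v : ℕ, STO N (Cv A v) →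
  ∀ g : ℕ, 1 ≤ g → ∃ D₁ : ℕ, 1 ≤ D₁ ∧ ∀ (S : Sp) (r : ℕ) (s : MSys S N (lin g) (Fin r)), 0 < r → Cv A v S g r s → Lt s →
    ∃ W : Rsl S, (∀ᶠ k in UF, vis s.Q k ⊓ (S.F k).Z ≤ W k) ∧
      (∀ i, Nul S fun k => ((Lab.ofZ W) k).leak ((s.lf i).win 0 k)) ∧ LvC W s.Q g D₁ ∧
      ∃ G : ∀ k, (S.F k).Ω → Matrix (Mon N D₁) (Mon N D₁) ℝ, Fuf W s.Q D₁ G

/-- [CLOSE] (helper15) the closing step at one level: `V` over `S`, its copies `(o i).pb V` and `W` over `T` -/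
def ROW_CLOSE : Prop := ∀ (N D g r gV gW : ℕ) (b : ℝ) (h0 : 0 < b) (S T : Sp) (s : MSys S N (lin g) (Fin r))
  (V : ∀ k, Setoid (S.F k).Ω) (GV : ∀ k, (S.F k).Ω → Matrix (Mon N D) (Mon N D) ℝ) (P : Pj T S) (o : Fin r → Pj T S)
  (W : ∀ k, Setoid (T.F k).Ω) (GW : ∀ k, (T.F k).Ω → Matrix (Mon N D) (Mon N D) ℝ) (K g₀ e γ a : ℝ), b ≤ 1 → 0 < r →
  1 ≤ gV → 1 ≤ gW → 0 ≤ K →
  (∀ i, ∀ᶠ k in UF, ∀ w, (T.F k).μ w ≠ 0 → (S.F k).Z ((o i).π k w) (P.π k w) ∧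
    (s.lf i).La k ((o i).π k w) (P.π k w) ∧ Setoid.ker ((s.lf i).Y.cellv 0 k) ((o i).π k w) (P.π k w)) →
  (∀ i, Nul S fun k => ((Lab.ofZ V) k).leak ((s.lf i).win 0 k)) →
  (∀ i, Nul T fun k => ((Lab.ofZ W) k).leak (((s.pull P).lf i).win 0 k)) →
  Lvl V s.Q gV D b h0 GV → Lvl W (P.vv s.Q) gW D b h0 GW →
  NHEt (S := T.chg T.tr b h0) ((P.vv s.Q).chg T.tr b h0) D (Sum.elim (fun _ : Unit => W) fun i => (o i).pb V) K g₀ →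
  (∀ i, ul (fun k => I (fc ((o i).pb V k)) (fc (P.pb (fun k => Setoid.ker (s.Q.cellv b k)) k)) (fc (W k)) / (T.F k).n) ≤
    a * b) →
  (∀ i, ul (fun k => I (fc (W k)) (fc ((o i).pb (fun k => Setoid.ker (s.Q.cellv b k)) k)) (fc ((o i).pb V k)) /
    (T.F k).n) ≤ a * b) →
  0 < e → e ≤ 1 → r * ((lin gV D + lin gW D : ℕ) * a) ≤ e / 8 → 8 * (K + N + 1) * e + g₀ < γ →
  (∀ᶠ k in UF, (T.F k).pb (fun w => ¬ γ ≤ gxF (F := (T.chg T.tr b h0).F k) (((P.vv s.Q).chg T.tr b h0).v k)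
    (GW k) w) ≤ 1 / 2) → False

/-- [PTW] (helper52) the profile, pointwise -/
def ROW_PTW : Prop := ∀ (N D g r : ℕ) (S T : Sp) (s : MSys S N (lin g) (Fin r)) (V : ∀ k, Setoid (S.F k).Ω)
  (p : Pj T S) (W : ∀ k, Setoid (T.F k).Ω) (Ex : ∀ k, (T.F k).Ω → (Fin 0 ⊕ Fin N ≃ Fin N))
  (f : ∀ k, (T.F k).Ω → Fin N → MvPolynomial (Fin N) ℝ) (w : ∀ k, (T.F k).Ω → Fin N → ℝ) (b c : ℝ), 1 ≤ D →
  0 ≤ b → b ≤ 1 → (∀ (T : Sp) (p : Pj T S) (A : ∀ k, (T.F k).Ω → Prop) (hA : 0 < ul (T.pr A)),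
    c ≤ H (up1 (Lab.ofZ (S := Sp.im p A) V) ((s.im p A hA).Q.dg b))) → (∀ k, W k ≤ p.pb V k) →
  PLe (fun k => fc (W k)) (fun k => fc (p.pb V k)) → RowsF W (p.vv s.Q) D Ex f w →
    ∀ ε : ℝ, 0 < ε → Typ (S := T) fun k ω => c - ε ≤ ∑ j, max (b - w k ω j) 0

/-- [PRW] (helper52) the converse, for every label which is known to the label of the rows -/
def ROW_PRW : Prop := ∀ (N D g r : ℕ) (S : Sp) (s : MSys S N (lin g) (Fin r)) (V U : ∀ k, Setoid (S.F k).Ω)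
  (Ex : ∀ k, (S.F k).Ω → (Fin 0 ⊕ Fin N ≃ Fin N))
  (f : ∀ k, (S.F k).Ω → Fin N → MvPolynomial (Fin N) ℝ) (w : ∀ k, (S.F k).Ω → Fin N → ℝ) (b c : ℝ), 1 ≤ D →
  0 ≤ b → b ≤ 1 → RowsF V s.Q D Ex f w → (∀ ε : ℝ, 0 < ε → Typ (S := S) fun k ω => c - ε ≤ ∑ j, max (b - w k ω j) 0) →
  PLe (fun k => fc (U k)) (fun k => fc (V k)) →
    ∀ (T : Sp) (p : Pj T S) (A : ∀ k, (T.F k).Ω → Prop) (hA : 0 < ul (T.pr A)),
      c ≤ H (up1 (Lab.ofZ (S := Sp.im p A) U) ((s.im p A hA).Q.dg b))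

/-- [GXL] (helper17) a full form has large exponents on half of the space -/
def ROW_GXL : Prop := ∀ (N D : ℕ) (S : Sp) (Q : S.VV N) (V : ∀ k, Setoid (S.F k).Ω)
  (G : ∀ k, (S.F k).Ω → Matrix (Mon N D) (Mon N D) ℝ) (a c : ℝ), (∀ᶠ k in UF, Kn1 (V k) (G k)) →
  FmG Q (fun k => zFD (V k) (G k)) → vol Q D (fun k => zFD (V k) (G k)) ≤ H (up1 (Lab.ofZ V) (Q.dg 1)) →
  H (up1 (Lab.ofZ V) (Q.dg 1)) ≤ c →
  (∀ (A : ∀ k, (S.F k).Ω → Prop) (_ : 0 < ul (S.pr A)),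
    a ≤ H (up1 (Lab.ofZ (S := Sp.im (Pj.id S) A) V) ((Q.im (Pj.id S) A).dg 1))) →
  ∀ η : ℝ, 0 < η → ∀ᶠ k in UF, (S.F k).pb (fun ω => ¬ N - (2 * c - a) - η ≤ gxF (S.F k) (Q.v k) (G k) ω) ≤ 1 / 2

/-- [ZER] (helper38) the first profile: `v + 1` unit directions over the full type-label, on an event -/
def ROW_ZER (N : ℕ) : Prop := ∀ (A : MCl N) (C : ℕ → MCl N), Okc N A C → (∀ m, m < N → STu m) → ∀ v : ℕ,
  STO N (Cv A (v + 1)) → ∀ (m g r e0 : ℕ) (E : Fin N → ℝ) (d : ℝ), 1 ≤ g → 0 < r → 1 ≤ N → 0 < d →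
    (∀ j, 0 ≤ E j ∧ E j < 1) → (∀ b : ℝ, 0 < b → b ≤ 1 → gam E b < (N - v) * b) →
      ∀ (S : Sp) (s : MSys S N (lin g) (Fin r)), JT (C m) v g r e0 E d S s →
        ∀ (D : ℕ) (V : Rsl S), 1 ≤ D → Ful s D 0 0 V →
          ∃ (T : Sp) (p : Pj T S) (B : ∀ k, (T.F k).Ω → Prop) (hB : 0 < ul (T.pr B)),
            Pfl (fun b => (v + 1) * b) (s.im p B hB) V

/-- [RDJ] (helper10) rounding of the point -/
def ROW_RDJ (N : ℕ) : Prop := ∀ (A : MCl N) (C : ℕ → MCl N), Okc N A C → ∀ (m v g r e0 : ℕ) (E : Fin N → ℝ) (d : ℝ)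
  (S : Sp) (s : MSys S N (lin g) (Fin r)), (∀ j, 0 ≤ E j ∧ E j < 1) → JT (C m) v g r e0 E d S s →
    JT (C m) v g r e0 E d S (rd s) ∧ Lt (rd s) ∧ ∀ (D : ℕ) (V : Rsl S), 1 ≤ D → Ful s D 0 0 V → Ful (rd s) D 0 0 V

/-- [JTI] (helper10) events of extensions -/
def ROW_JTI (N : ℕ) : Prop := ∀ (A : MCl N) (C : ℕ → MCl N), Okc N A C → ∀ (m v g r e0 : ℕ) (E : Fin N → ℝ) (d : ℝ)
  (S : Sp) (s : MSys S N (lin g) (Fin r)), 1 ≤ g → 0 < r → JT (C m) v g r e0 E d S s → ∀ (T : Sp) (p : Pj T S),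
    JT (C m) v g r e0 E d T (s.pull p) ∧ ∀ (A : ∀ k, (T.F k).Ω → Prop) (hA : 0 < ul (T.pr A)),
      JT (C m) v g r e0 E d (Sp.im p A) (s.im p A hA)

end

end Pool.Agent.Helper87.NJ
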