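import Pool.Agent.Helper87.NJ.St
import Pool.Agent.Helper81.CP3.Rfo

/-! [RFO]: helper81's theorem in the shape of the row. -/

set_option autoImplicit false

namespace Pool.Agent.Helper87.NJ

open Finset Filter Topology Matrix Pool.Agent.Helper69.RK Pool.Agent.Helper31.EC Pool.Agent.Helper31.EC.Sp
open Pool.Agent.Helper40.EL Pool.Agent.Helper84.MT
open Pool.Agent.Helper81.CP2 (cLb)
open Pool.Agent.Helper81.CP3 (nodX nodF rowsF_joint)

noncomputable section

theorem row_rfo : ROW_RFO := by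
  intro N v q D E S W V Q l Ex f w p qq hq hL hP hD hvq hx
  obtain ⟨e⟩ : Nonempty ((Fin N → Fin (q * D + 1)) ≃ Fin (Fintype.card (Fin N → Fin (q * D + 1)))) :=
    ⟨Fintype.equivFin _⟩
  have h := rowsF_joint l p qq hq hx hL hP
  refine ⟨_, fun k u => e (nodX D Q V l Ex f k (qq.π k u)), fun k u => nodF D Q V l Ex f k (qq.π k u), ?_⟩
  have e1 : (fun k => qq.pb (cLb l V).V k ⊓ Setoid.ker (fun u => e (nodX D Q V l Ex f k (qq.π k u)))) =
      fun k => qq.pb (cLb l V).V k ⊓ Setoid.ker (fun u => nodX D Q V l Ex f k (qq.π k u)) := by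
    funext k
    refine congrArg (fun x => qq.pb (cLb l V).V k ⊓ x) ?_
    refine Setoid.ext fun u u' => ?_
    exact e.injective.eq_iff
  rw [e1]
  exact h

end

end Pool.Agent.Helper87.NJ
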