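import Pool.Agent.Helper87.NJ.Asm
import Pool.Agent.Helper87.NJ.Rfo
import Pool.Agent.Helper38.NJ.Fob
import Pool.Agent.Helper38.NJ.Zfin
import Pool.Agent.Helper66.NJ.Car
import Pool.Agent.Helper69.NJ.Fui
import Pool.Agent.Helper76.FDG.Row
import Pool.Agent.Helper61.NJ.Clb
import Pool.Agent.Helper36.NJ.Gxl
import Pool.Agent.Helper29.NJ.Prw
import Pool.Agent.Helper15.NJ.Close
import Pool.Agent.Helper93.NJ.Rfr
import Pool.Agent.Helper80.SUB.Rowm
import Pool.Agent.Helper10.NJ.Rows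

/-! **NSLJ**: no full type-labels, no hypotheses. -/

set_option autoImplicit false

namespace Pool.Agent.Helper87.NJ

open Pool.Agent.Helper15.FST (NSLJ)

/-- all rows -/
theorem rws (N : ℕ) : Rws N where
  fdg := Pool.Agent.Helper76.FDG.row_fdg N
  fui := Pool.Agent.Helper69.NJ.row_fui
  rfr := Pool.Agent.Helper93.NJ.row_rfr
  rfo := row_rfo
  mem := Pool.Agent.Helper80.SUB.row_mem
  clb := Pool.Agent.Helper61.NJ.row_clb (Pool.Agent.Helper76.FDG.row_fdg N)
  car := Pool.Agent.Helper66.NJ.row_car N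
  close := Pool.Agent.Helper15.NJ.row_close
  ptw := Pool.Agent.Helper29.NJ.row_ptw
  prw := Pool.Agent.Helper29.NJ.row_prw
  gxl := Pool.Agent.Helper36.NJ.row_gxl
  zer := Pool.Agent.Helper38.NJ.row_zer N
  rdj := Pool.Agent.Helper10.NJ.row_rdj N
  jti := Pool.Agent.Helper10.NJ.row_jti N

theorem fob (N : ℕ) : FOB N := by
  intro A C hC hST v q hvq hSTO m g r e0 E d hg hr hN hd hE hgam S s hs D V hD hV
  have h := rws N
  exact Pool.Agent.Helper38.NJ.first_obj h.fdg h.ptw h.prw h.rfr h.mem h.car h.fui h.rdj h.jti h.zer hC hST hvq hSTO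
    hg hr hN hd hE hgam hs hD hV

/-- **NSLJ** -/
theorem nslj (N : ℕ) : NSLJ N := nslj_of (rws N) (fob N)

end Pool.Agent.Helper87.NJ
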