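import Pool.Agent.Helper87.NJ.Fin

/-! **NSLJ**, assembly: the selection. -/

set_option autoImplicit false

namespace Pool.Agent.Helper87.NJ

open Finset Filter Topology Matrix Pool.Agent.Helper69.RK Pool.Agent.Helper31.EC Pool.Agent.Helper31.EC.Sp
open Pool.Agent.Helper40.EL Pool.Agent.Helper89.LX Pool.Agent.Helper84.MT
open Pool.Agent.Helper36.AM (MCl STu STO)
open Pool.Agent.Helper29.MX
open Pool.Agent.Helper15.FST (gam JT Ful NHb NSLJ)
open Pool.Agent.Helper84.NJ (Fea Obj kap cst)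

noncomputable section

variable {S T W : Sp} {M N D g r : ℕ} {E : ℕ → ℕ} {ι : Type}

/-! ### numbers -/

theorem zeros {E : Fin N → ℝ} {v : ℕ} (hE : ∀ j, 0 ≤ E j ∧ E j < 1)
    (hgam : ∀ b : ℝ, 0 < b → b ≤ 1 → gam E b < (N - v) * b) :
    ∃ η₁ : ℝ, 0 < η₁ ∧ ∀ η : ℝ, 0 < η → η ≤ η₁ → (v + 1) * η ≤ N * η - gam E η := by
  obtain ⟨η₁, h0, h1, h2⟩ : ∃ η₁ : ℝ, 0 < η₁ ∧ η₁ ≤ 1 ∧ ∀ j, E j ≤ 0 ∨ η₁ ≤ E j := by
    rcases Pool.Agent.Helper84.NJ.exists_next E 0 with h | ⟨i, hi, h⟩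
    · exact ⟨1, one_pos, le_rfl, fun j => Or.inl (h j)⟩
    · exact ⟨E i, hi, (hE i).2.le, h⟩
  have g0 : gam E 0 = 0 := by
    unfold gam
    exact Finset.sum_eq_zero fun j _ => min_eq_right (hE j).1
  have key : ∀ η : ℝ, 0 < η → η ≤ η₁ → gam E η = (N - kap E 0) * η := by
    intro η a b
    have h3 : Pool.Agent.Helper84.NJ.gam E η = Pool.Agent.Helper84.NJ.gam E 0 + (N - kap E 0) * (η - 0) :=
      Pool.Agent.Helper84.NJ.gam_lin a.le fun j => (h2 j).imp_right fun h => b.trans h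
    have h4 : Pool.Agent.Helper84.NJ.gam E 0 = 0 := g0
    rw [h4, sub_zero, zero_add] at h3
    exact h3
  have h5 : v + 1 ≤ kap E 0 := by
    have h6 := hgam η₁ h0 h1
    rw [key η₁ h0 le_rfl] at h6
    have h7 : (N : ℝ) - kap E 0 < N - v := lt_of_mul_lt_mul_right h6 h0.le
    have h8 : (v : ℝ) < kap E 0 := by linarith
    have h9 : v < kap E 0 := by exact_mod_cast h8
    exact h9
  refine ⟨η₁, h0, fun η a b => ?_⟩
  rw [key η a b]
  have h6 : ((v : ℝ) + 1) ≤ kap E 0 := by exact_mod_cast h5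
  nlinarith

/-! ### objects and their functions -/

/-- the functions of a label: entropies over it on all events -/
def Fn (s : MSys S N (lin g) (Fin r)) (V : Rsl S) : Set (ℝ → ℝ) :=
  {f | ∃ (T : Sp) (p : Pj T S) (A : ∀ k, (T.F k).Ω → Prop) (hA : 0 < ul (T.pr A)),
    f = fun b => H (up1 (Lab.ofZ (S := Sp.im p A) V) ((s.im p A hA).Q.dg b))}

theorem obj_fn {C : MCl N} {v e0 : ℕ} {E : Fin N → ℝ} {d : ℝ} {s : MSys S N (lin g) (Fin r)} {V : Rsl S}
    (h : JT C v g r e0 E d S s) : Obj E d (Fn s V) where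
  ne := ⟨_, S, Pj.id S, fun _ _ => True, Pool.Agent.Helper91.EXA.pos_true S, rfl⟩
  mono := by
    rintro f ⟨T, p, A, hA, rfl⟩ b b' _ hb _
    exact H_mono (up1_mono _ (VV.dg_mono _ hb))
  zero := by
    rintro f ⟨T, p, A, hA, rfl⟩
    have h1 := H_up1_le (Lab.ofZ (S := Sp.im p A) V) ((s.im p A hA).Q.dg 0)
    have h2 := (s.im p A hA).Q.H_dg_le le_rfl
    rw [mul_zero] at h2
    exact le_antisymm (h1.trans h2) (H_nonneg _)
  le := by
    rintro f ⟨T, p, A, hA, rfl⟩ b hb0 hb1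
    have h1 := H_up1_le (Lab.ofZ (S := Sp.im p A) V) ((s.im p A hA).Q.dg b)
    exact h1.trans (h.dfb T p A hA b hb0 hb1)
  top := by
    rintro f ⟨T, p, A, hA, rfl⟩
    have h1 := H_up1_le (Lab.ofZ (S := Sp.im p A) V) ((s.im p A hA).Q.dg 1)
    have h2 := h.dfc T p A hA
    have h3 : cst E 1 - d = N - gam E 1 - d := by
      show (N : ℝ) * 1 - Pool.Agent.Helper84.NJ.gam E 1 - d = _
      rw [mul_one]
      rfl
    rw [h3]
    exact h1.trans h2

/-- the profile from feasibility -/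
theorem pfl_of_fea {E : Fin N → ℝ} {ρ : ℝ} {κ : ℕ} {s : MSys S N (lin g) (Fin r)} {V : Rsl S}
    (h : Fea E (Fn s V) ρ κ) : Pfl (pf E ρ κ) s V := by
  intro T p A hA b hb0 hb1
  obtain ⟨h1, h2⟩ := h _ ⟨T, p, A, hA, rfl⟩
  unfold pf
  by_cases hb : b ≤ ρ
  · rw [if_pos hb]
    exact (h1 b hb0 hb).ge
  · rw [if_neg hb]
    have h3 := h2 (b - ρ) (by linarith [not_le.mp hb]) (by linarith)
    have h4 : ρ + (b - ρ) = b := by ring
    rw [h4] at h3
    exact h3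

/-- feasibility from the profile -/
theorem fea_of_pfl {E : Fin N → ℝ} {d : ℝ} {ρ : ℝ} {κ : ℕ} (hρ0 : 0 ≤ ρ) (hρ : ρ ≤ 1) {s : MSys S N (lin g) (Fin r)}
    {V : Rsl S} (hO : Obj E d (Fn s V)) (h : Pfl (pf E ρ κ) s V) : Fea E (Fn s V) ρ κ := by
  rintro f ⟨T, p, A, hA, rfl⟩
  refine ⟨fun b hb0 hb => le_antisymm (hO.le _ ⟨T, p, A, hA, rfl⟩ b hb0 (hb.trans hρ)) ?_, fun x hx0 hx1 => ?_⟩
  · have h1 := h T p A hA b hb0 (hb.trans hρ)
    unfold pf at h1
    rw [if_pos hb] at h1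
    exact h1
  · have h1 := h T p A hA (ρ + x) (by linarith) hx1
    refine le_trans (le_of_eq ?_) h1
    unfold pf
    rcases hx0.eq_or_lt with h0 | h0
    · rw [← h0, mul_zero, add_zero, add_zero, if_pos le_rfl]
      rfl
    · rw [if_neg (by linarith), add_sub_cancel_left]
      rfl

/-- the first object, as a hypothesis -/
def FOB (N : ℕ) : Prop := ∀ (A : MCl N) (C : ℕ → MCl N), Okc N A C → (∀ m, m < N → STu m) → ∀ (v q : ℕ),
  v + 1 + q = N → STO N (Cv A (v + 1)) → ∀ (m g r e0 : ℕ) (E : Fin N → ℝ) (d : ℝ), 1 ≤ g → 0 < r → 1 ≤ N → 0 < d →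
    (∀ j, 0 ≤ E j ∧ E j < 1) → (∀ b : ℝ, 0 < b → b ≤ 1 → gam E b < (N - v) * b) →
      ∀ (S : Sp) (s : MSys S N (lin g) (Fin r)), JT (C m) v g r e0 E d S s → ∀ (D : ℕ) (V : Rsl S), 1 ≤ D →
        Ful s D 0 0 V → ∃ (T : Sp) (t : MSys T N (lin g) (Fin r)) (W : Rsl T), JT (C m) v g r e0 E d T t ∧ Lt t ∧
          PO t W ∧ Pfl (fun b => (v + 1) * b) t W

/-- **NSLJ** from the rows and the first object -/
theorem nslj_of (hR : Rws N) (hF : FOB N) : NSLJ N := by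
  intro A C hC hST v hSTO m g r e0 E d hg hr hN hd hE hgam S s hs D V hD hV
  -- the number of unit directions
  have hvN : v + 1 ≤ N := by
    have h1 := hgam 1 one_pos le_rfl
    have h2 : 0 ≤ gam E 1 := by
      unfold gam
      exact Finset.sum_nonneg fun j _ => le_min (hE j).1 zero_le_one
    have h3 : (v : ℝ) < N := by linarith
    have h4 : v < N := by exact_mod_cast h3
    exact h4
  obtain ⟨q, hq⟩ : ∃ q, v + 1 + q = N := ⟨N - (v + 1), by omega⟩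
  obtain ⟨T1, t1, W1, j1, l1, p1, f1⟩ := hF A C hC hST v q hq hSTO m g r e0 E d hg hr hN hd hE hgam S s hs D V hD hV
  -- the selection
  let O : Type _ := {x : Σ S : Sp, MSys S N (lin g) (Fin r) × Rsl S // Ob (C m) v g r e0 E d x.1 x.2.1 x.2.2}
  let G : O → Set (ℝ → ℝ) := fun o => Fn o.1.2.1 o.1.2.2
  let o1 : O := ⟨⟨T1, t1, W1⟩, ⟨j1, l1, p1⟩⟩
  have hne : Nonempty O := ⟨o1⟩
  obtain ⟨ρ, κ, o, hρ0, hρ1, hk, hfea, hmax⟩ := Pool.Agent.Helper84.NJ.sel (O := O) (ε := E) (G := G) hd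
    (fun j => (hE j).1) (fun j => (hE j).2) (fun o => obj_fn o.2.jt)
  have g0 : gam E 0 = 0 := by
    unfold gam
    exact Finset.sum_eq_zero fun j _ => min_eq_right (hE j).1
  -- small levels
  have hf0 : ∃ η₀ : ℝ, 0 < η₀ ∧ ∀ η : ℝ, 0 < η → η ≤ η₀ → (v + 1) * η ≤ pf E ρ κ η := by
    rcases hρ0.eq_or_lt with h0 | h0
    · have hvk : v + 1 ≤ κ := by
        by_contra hc
        have h2 : κ + 1 ≤ v + 1 := by omega
        have h3 : Pfl (pf E ρ (v + 1 : ℕ)) t1 W1 := by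
          intro T p B hB b hb0 hb1
          refine le_trans (le_of_eq ?_) (f1 T p B hB b hb0 hb1)
          unfold pf
          rw [← h0, g0]
          by_cases hb : b ≤ 0
          · have hb' : b = 0 := le_antisymm hb hb0
            rw [if_pos hb, hb', g0]
            ring
          · rw [if_neg hb]
            push_cast
            ring
        have h4 : Fea E (G o1) ρ (v + 1) := fea_of_pfl hρ0 hρ1.le (obj_fn j1) h3
        exact hmax o1 (h4.anti h2)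
      refine ⟨1, one_pos, fun η a _ => ?_⟩
      unfold pf
      rw [← h0, if_neg (not_le.mpr a), g0]
      have h5 : ((v : ℝ) + 1) ≤ κ := by exact_mod_cast hvk
      have h6 := mul_le_mul_of_nonneg_right h5 a.le
      linarith
    · obtain ⟨η₁, a1, a2⟩ := zeros hE hgam
      refine ⟨min η₁ ρ, lt_min a1 h0, fun η a b => ?_⟩
      unfold pf
      rw [if_pos (b.trans (min_le_right _ _))]
      exact a2 η a (b.trans (min_le_left _ _))
  refine step hR hC hST hq hSTO hg hr hE hρ0 hρ1 hk hf0 (fun S' s' V' ho' hp => ?_) o.2 (pfl_of_fea hfea)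
  have h1 : Pfl (pf E ρ ((κ + 1 : ℕ) : ℝ)) s' V' := by
    push_cast
    exact hp
  exact hmax ⟨⟨S', s', V'⟩, ho'⟩ (fea_of_pfl hρ0 hρ1.le (obj_fn ho'.jt) h1)

end

end Pool.Agent.Helper87.NJ
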