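import Pool.Agent.Helper87.NJ.St
import Pool.Agent.Helper10.FST.Rdj
import Pool.Agent.Helper52.MW.Def

/-! NSLJ, assembly, part 1: auxiliary systems and their carriers. -/

set_option autoImplicit false

namespace Pool.Agent.Helper87.NJ

open Finset Filter Topology Matrix Pool.Agent.Helper69.RK Pool.Agent.Helper31.EC Pool.Agent.Helper31.EC.Sp
open Pool.Agent.Helper40.EL Pool.Agent.Helper89.LX Pool.Agent.Helper84.MT
open Pool.Agent.Helper36.AM (MCl STu STO)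
open Pool.Agent.Helper3.LF (Mon)
open Pool.Agent.Helper38.NSL (NI NHEt gxF NI_of_PLe PLe_pull)
open Pool.Agent.Helper29.MX
open Pool.Agent.Helper66.NJ (Kn1 zFD)
open Pool.Agent.Helper87.NSL (FmG CostP)
open Pool.Agent.Helper76.ADP (RowsF rsp rpj rfr)
open Pool.Agent.Helper76.THK (e00)
open Pool.Agent.Helper80.SUB (Sub ptop)
open Pool.Agent.Helper15.FST (gam JT Ful)

noncomputable section

variable {S T : Sp} {M N D g r : ℕ} {E : ℕ → ℕ} {ι : Type}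

/-! ### rules -/

theorem pt_pull {s : MSys S M E ι} (h : Lt s) (p : Pj T S) : Lt (s.pull p) := by
  have h1 : ∀ᶠ k in UF, ∀ ω ω', (S.F k).μ ω ≠ 0 → (S.F k).μ ω' ≠ 0 → (S.F k).Z ω ω' → vis s.Q k ω ω' →
    s.Q.v k ω = s.Q.v k ω' := h
  show ∀ᶠ k in UF, ∀ ω ω', (T.F k).μ ω ≠ 0 → (T.F k).μ ω' ≠ 0 → (T.F k).Z ω ω' → vis (p.vv s.Q) k ω ω' →
    s.Q.v k (p.π k ω) = s.Q.v k (p.π k ω')
  filter_upwards [h1] with k hk ω ω' a b z hv
  refine hk _ _ (p.supp k ω a) (p.supp k ω' b) ((p.hZ k ω ω' a b).1 z) ?_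
  have h2 : (p.vv s.Q).cellv 1 k ω = (p.vv s.Q).cellv 1 k ω' := hv
  rw [vv_cellv] at h2
  exact h2

theorem ple_of_lk {V : ∀ k, Setoid (S.F k).Ω} {B : Part S} (h : Nul S fun k => ((Lab.ofZ V) k).leak (B k)) :
    PLe (fun k => fc (V k)) B := by
  have e1 : (fun k => ((Lab.ofZ V) k).leak (B k)) = fun k => Pool.Agent.Helper31.EC.h (fc (V k)) (B k) :=
    funext fun k => Lab.ofZ_leak V B k
  rw [e1] at h
  exact h

theorem lk_of_ple {V : ∀ k, Setoid (S.F k).Ω} {B : Part S} (h : PLe (fun k => fc (V k)) B) :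
    Nul S fun k => ((Lab.ofZ V) k).leak (B k) := by
  have e1 : (fun k => ((Lab.ofZ V) k).leak (B k)) = fun k => Pool.Agent.Helper31.EC.h (fc (V k)) (B k) :=
    funext fun k => Lab.ofZ_leak V B k
  rw [e1]
  exact h

/-- visible partitions -/
theorem ple_vis {Q : S.VV M} {W : ∀ k, Setoid (S.F k).Ω} (h : ∀ᶠ k in UF, vis Q k ⊓ (S.F k).Z ≤ W k) :
    PLe (fun k => fc (W k)) (pcd Q) := by
  refine Pool.Agent.Helper80.SUB.ple_evl ?_
  filter_upwards [h] with k hk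
  refine fc_le fun ω ω' _ _ hZ hv => hk ⟨hv, hZ⟩

/-! ### the auxiliary system and its carrier -/

/-- **THE AUXILIARY SYSTEM AND ITS CARRIER** -/
theorem auxs (hMEM : ROW_MEM) (hCAR : ROW_CAR N) {A : MCl N} (hA : OkA N A) (hST : ∀ m, m < N → STu m) {v q : ℕ}
    (hvq : v + q = N) (hSTO : STO N (Cv A v)) (hr : 0 < r) (hD : 1 ≤ D)
    {s : MSys S N (lin g) (Fin r)} (hs : A S g r s) (hlt : Lt s) {p : Pj T S} {V : Fin r → ∀ k, Setoid (T.F k).Ω}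
    (hV : Axl s p V) {Ex : Fin r → ∀ k, (T.F k).Ω → (Fin v ⊕ Fin q ≃ Fin N)}
    {f : Fin r → ∀ k, (T.F k).Ω → Fin q → MvPolynomial (Fin N) ℝ} {w : Fin r → ∀ k, (T.F k).Ω → Fin q → ℝ}
    (hx : ∀ j, RowsF (V j) (p.vv s.Q) D (Ex j) (f j) (w j)) :
    ∃ (g' D₁ : ℕ) (W : Rsl (rsp T q)), 1 ≤ g' ∧ 1 ≤ D₁ ∧ PO (s.pull ((rpj T q).comp p)) W ∧
      LvC W (s.pull ((rpj T q).comp p)).Q g' D₁ ∧
      (∀ᶠ k in UF, vis (s.pull ((rpj T q).comp p)).Q k ⊓ ((rsp T q).F k).Z ≤ W k) ∧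
      ∀ j, PLe (fun k => fc (W k)) (fun k => fc ((rpj T q).pb (V j) k ⊓ rfr T q k)) := by
  obtain ⟨g', t, hg', hQ, hsub, hAt, hinv, hwin⟩ := hMEM N v q D g r A hA hvq hD hr S T s p V Ex f w hs hV hx
  obtain ⟨D₁, hD₁, hcar⟩ := hCAR A hA hST v hSTO g' hg'
  have hlt' : Lt t := by
    have h1 : Lt (s.pull ((rpj T q).comp p)) := pt_pull hlt _
    have h2 : t.Q = (s.pull ((rpj T q).comp p)).Q := hQ
    unfold Lt Pt at h1 ⊢
    rw [h2]
    exact h1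
  obtain ⟨W, hvis, hlk, hlv, G, hG⟩ := hcar _ r t hr ⟨hAt, hinv⟩ hlt'
  have hQ' : t.Q = (s.pull ((rpj T q).comp p)).Q := hQ
  have hvs : PLe (fun k => fc (W k)) (pcd t.Q) := ple_vis hvis
  rw [hQ'] at hlv hG hvs hvis
  refine ⟨g', D₁, W, hg', hD₁, ⟨fun i => ?_, hvs, D₁, G, hD₁, hG⟩, hlv, hvis, fun j => ?_⟩
  · have h3 := hsub.leak (B := pcd s.Q) (Lab.ofZ W) (by
      rw [← pcd_pull]
      exact lk_of_ple hvs) le_rfl zero_le_one hlk i
    rw [← win_pull] at h3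
    exact h3
  · exact (ple_of_lk (hlk j)).trans (hwin j)

end

end Pool.Agent.Helper87.NJ
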