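import Pool.Agent.Helper87.NJ.Crr
import Pool.Agent.Helper13.FST.Kc
import Pool.Agent.Helper76.ADP.Ind

/-! NSLJ, assembly, part 3: copies of a label, over all types. -/

set_option autoImplicit false

namespace Pool.Agent.Helper87.NJ

open Finset Filter Topology Matrix Pool.Agent.Helper69.RK Pool.Agent.Helper31.EC Pool.Agent.Helper31.EC.Sp
open Pool.Agent.Helper40.EL Pool.Agent.Helper89.LX Pool.Agent.Helper84.MT
open Pool.Agent.Helper36.AM (MCl STu STO)
open Pool.Agent.Helper3.LF (Mon)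
open Pool.Agent.Helper38.NSL (NI NHEt gxF NI_of_PLe PLe_pull Pjn wn optW C3)
open Pool.Agent.Helper29.MX
open Pool.Agent.Helper66.NJ (Kn1 zFD)
open Pool.Agent.Helper87.NSL (FmG CostP)
open Pool.Agent.Helper76.ADP (RowsF rsp rpj rfr rfr_I)
open Pool.Agent.Helper76.THK (e00)
open Pool.Agent.Helper80.SUB (Sub ptop)
open Pool.Agent.Helper15.FST (gam JT Ful NHb)
open Pool.Agent.Helper81.CP2 (cLb cLb_leak' joint_indep)
open Pool.Agent.Helper81.CPY (pjb cpl wnC wnC_iff amv_eq amv_base)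
open Pool.Agent.Helper13.FST (gW H_gW gW_UB gW_nonneg gW_event)

noncomputable section

variable {S T W : Sp} {M N D g r : ℕ} {E : ℕ → ℕ} {ι : Type}

/-! ### the projection to the copy -/

section cp

variable {Q : S.VV M} (l : Leaf S Q E) (V : ∀ k, Setoid (S.F k).Ω)

/-- the projection to the copy -/
def cp2 : Pj (cLb l V).sp S := (cpl (Lab.ofZ V) (wnC l 0)).p2.comp (Lab.ofZ V).pj

theorem cp2_V (k : ℕ) : (cLb l V).V k = (cp2 l V).pb V k := rfl

theorem cp2_pi (k : ℕ) (w : ((cLb l V).sp.F k).Ω) : (cp2 l V).π k w = (w : _ × _).2 := rfl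

/-- the copy and the old point are in the same window -/
theorem cp2_agree (k : ℕ) (w : ((cLb l V).sp.F k).Ω) (hw : ((cLb l V).sp.F k).μ w ≠ 0) :
    (S.F k).Z ((cp2 l V).π k w) ((cLb l V k).p.π w) ∧ l.La k ((cp2 l V).π k w) ((cLb l V k).p.π w) ∧
      Setoid.ker (l.Y.cellv 0 k) ((cp2 l V).π k w) ((cLb l V k).p.π w) := by
  have he := (wnC_iff l 0 k _ _).mp (amv_eq (Pj.id S) (Lab.ofZ V).pj (wnC l 0) k w hw)
  have hb := amv_base (Pj.id S) (Lab.ofZ V).pj (wnC l 0) k w hw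
  exact ⟨(S.F k).Z.symm hb, (l.La k).symm he.1, (Setoid.ker (l.Y.cellv 0 k)).symm he.2⟩

end cp

/-! ### rows of the copies -/

theorem Rw0.copy (hRFO : ROW_RFO) {f : ℝ → ℝ} {V : ∀ k, Setoid (S.F k).Ω} {Q : S.VV N} (h : Rw0 f D V Q)
    (hD : 1 ≤ D) (l : Leaf S Q E) (p : Pj W S) (qq : Pj W (cLb l V).sp)
    (hq : ∀ k w', (W.F k).μ w' ≠ 0 → (cLb l V k).p.π (qq.π k w') = p.π k w')
    (hL : Nul S (fun k => ((Lab.ofZ V) k).leak (l.win 0 k))) (hP : Nul S (fun k => ((Lab.ofZ V) k).leak (pcd Q k))) :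
    ∃ (n' : ℕ) (X : ∀ k, (W.F k).Ω → Fin n'),
      Rw0 f D (fun k => qq.pb (cLb l V).V k ⊓ Setoid.ker (X k)) (p.vv Q) := by
  obtain ⟨Ex, F, w, h1, h2⟩ := h
  obtain ⟨n', X, F', h3⟩ := hRFO N 0 N D E S W V Q l Ex F w p qq hq hL hP hD (Nat.zero_add N) h1
  refine ⟨n', X, _, F', _, h3, fun b h0 hb ε hε => ?_⟩
  have h4 := Pj.typ (qq.comp (cp2 l V)) (h2 b h0 hb ε hε)
  exact h4

theorem Rw1.copy (hRFO : ROW_RFO) {v q : ℕ} (hvq : v + q = N) {V : ∀ k, Setoid (S.F k).Ω} {Q : S.VV N}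
    (h : Rw1 v q D V Q) (hD : 1 ≤ D) (l : Leaf S Q E) (p : Pj W S) (qq : Pj W (cLb l V).sp)
    (hq : ∀ k w', (W.F k).μ w' ≠ 0 → (cLb l V k).p.π (qq.π k w') = p.π k w')
    (hL : Nul S (fun k => ((Lab.ofZ V) k).leak (l.win 0 k))) (hP : Nul S (fun k => ((Lab.ofZ V) k).leak (pcd Q k))) :
    ∃ (n' : ℕ) (X : ∀ k, (W.F k).Ω → Fin n'),
      Rw1 v q D (fun k => qq.pb (cLb l V).V k ⊓ Setoid.ker (X k)) (p.vv Q) := by
  obtain ⟨Ex, F, w, h1⟩ := h
  obtain ⟨n', X, F', h3⟩ := hRFO N v q D E S W V Q l Ex F w p qq hq hL hP hD hvq h1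
  exact ⟨n', X, _, F', _, h3⟩

/-! ### codes -/

/-- a bounded code does not matter -/
theorem ple_cod {n : ℕ} (X : ∀ k, (S.F k).Ω → Fin n) (V : ∀ k, Setoid (S.F k).Ω) :
    PLe (fun k => fc (V k ⊓ Setoid.ker (X k))) (fun k => fc (V k)) := by
  have e1 : (fun k => fc (V k ⊓ Setoid.ker (X k))) = fun k => fc (V k) ⊔ fc (Setoid.ker (X k)) :=
    funext fun k => fc_inf _ _
  rw [e1]
  exact PLe.sup_le (PLe.refl _) (Pool.Agent.Helper63.FRT.fin_PLe X _)

/-- fresh digits and a partition, known to a coarser one -/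
theorem ple_fr {V U : ∀ k, Setoid (S.F k).Ω} (h : PLe (fun k => fc (V k)) (fun k => fc (U k))) (n : ℕ) :
    PLe (S := rsp S n) (fun k => fc ((rpj S n).pb V k ⊓ rfr S n k)) (fun k => fc ((rpj S n).pb U k ⊓ rfr S n k)) := by
  have e1 : (fun k => fc (F := (rsp S n).F k) ((rpj S n).pb V k ⊓ rfr S n k)) =
      fun k => fc (F := (rsp S n).F k) ((rpj S n).pb V k) ⊔ fc (F := (rsp S n).F k) (rfr S n k) :=
    funext fun k => fc_inf _ _
  have e2 : (fun k => fc (F := (rsp S n).F k) ((rpj S n).pb U k ⊓ rfr S n k)) =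
      fun k => fc (F := (rsp S n).F k) ((rpj S n).pb U k) ⊔ fc (F := (rsp S n).F k) (rfr S n k) :=
    funext fun k => fc_inf _ _
  rw [e1, e2]
  refine PLe.sup_le ?_ ?_
  · have h1 := PLe_pull h (rpj S n)
    exact PLe.trans h1 (PLe_of_le fun k => le_sup_left)
  · exact PLe_of_le fun k => le_sup_right

section cps

variable (s : MSys T N (lin g) (Fin r)) (V3 : ∀ k, Setoid (T.F k).Ω) (P : Pj W T)
  (q : ∀ i, Pj W (cLb (s.lf i) V3).sp)
  (hq : ∀ i k w, (W.F k).μ w ≠ 0 → (cLb (s.lf i) V3 k).p.π ((q i).π k w) = P.π k w)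

include hq in
/-- the copies with codes are independent given the windows -/
theorem axl_cop {n : Fin r → ℕ} (X : ∀ i k, (W.F k).Ω → Fin (n i)) :
    Axl s P (fun i k => (q i).pb (cLb (s.lf i) V3).V k ⊓ Setoid.ker (X i k)) := by
  refine ⟨fun j => ?_⟩
  have h1 : NI (S := W) (fun k => fc ((q j).pb (cLb (s.lf j) V3).V k)) (ptop P) (((s.lf j).win 0).pull P) := by
    refine (Nul_zero W).of_le (Eventually.of_forall fun k => I_nonneg _ _ _) (Eventually.of_forall fun k => ?_)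
    exact (joint_indep (s.lf j) V3 P (q j) (hq j) k).le
  have h2 := ple_cod (S := W) (X j) (fun k => (q j).pb (cLb (s.lf j) V3).V k)
  have h3 : PLe (fun k => fc ((q j).pb (cLb (s.lf j) V3).V k ⊓ Setoid.ker (X j k)))
      (Pjn (fun k => fc ((q j).pb (cLb (s.lf j) V3).V k)) (((s.lf j).win 0).pull P)) :=
    h2.trans (Pool.Agent.Helper38.NSL.PLe_left _ _)
  have h4 : NI (S := W) (fun k => fc ((q j).pb (cLb (s.lf j) V3).V k ⊓ Setoid.ker (X j k))) (ptop P)
      (((s.lf j).win 0).pull P) := NI.mono_left h1 h3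
  exact h4

/-- the points of the copies, with fresh digits -/
def oo (n : ℕ) (i : Fin r) : Pj (rsp W n) T := (rpj W n).comp ((q i).comp (cp2 (s.lf i) V3))

/-- the copies are known to the copies of a coarser label -/
theorem ple_cop {V' : ∀ k, Setoid (T.F k).Ω} (hV : PLe (fun k => fc (V3 k)) (fun k => fc (V' k))) (n : ℕ) (i : Fin r)
    {m : ℕ} (X : ∀ k, (W.F k).Ω → Fin m) :
    PLe (S := rsp W n) (fun k => fc ((rpj W n).pb (fun k => (q i).pb (cLb (s.lf i) V3).V k ⊓ Setoid.ker (X k)) k ⊓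
      rfr W n k)) (fun k => fc ((oo s V3 q n i).pb V' k ⊓ rfr W n k)) := by
  have h1 : PLe (S := W) (fun k => fc ((q i).pb (cLb (s.lf i) V3).V k))
      (fun k => fc (((q i).comp (cp2 (s.lf i) V3)).pb V' k)) := PLe_pull hV ((q i).comp (cp2 (s.lf i) V3))
  have h2 := ple_cod (S := W) X (fun k => (q i).pb (cLb (s.lf i) V3).V k)
  have h3 := ple_fr (h2.trans h1) n
  exact h3

/-- INFORMATION (ii): everything known to the copy and to the fresh digits is independent of the copied space given the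
copy -/
theorem ni_cop {V' : ∀ k, Setoid (T.F k).Ω} (hV : PLe (fun k => fc (V3 k)) (fun k => fc (V' k))) (n : ℕ) (i : Fin r)
    {m : ℕ} (X : ∀ k, (W.F k).Ω → Fin m) {Wf : ∀ k, Setoid ((rsp W n).F k).Ω}
    (hW : PLe (S := rsp W n) (fun k => fc (Wf k)) (fun k => fc ((rpj W n).pb (fun k => (q i).pb (cLb (s.lf i) V3).V k ⊓
      Setoid.ker (X k)) k ⊓ rfr W n k))) (Y : ∀ k, Setoid (T.F k).Ω) :
    NI (S := rsp W n) (fun k => fc (Wf k)) (fun k => fc ((oo s V3 q n i).pb Y k))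
      (fun k => fc ((oo s V3 q n i).pb V' k)) := by
  have h1 : NI (S := rsp W n) (fun k => fc (rfr W n k)) (fun k => fc ((oo s V3 q n i).pb Y k))
      (fun k => fc ((oo s V3 q n i).pb V' k)) := by
    refine (Nul_zero _).of_le (Eventually.of_forall fun k => I_nonneg _ _ _) (Eventually.of_forall fun k => ?_)
    have h2 := rfr_I (S := W) (q := n) k (fc (((q i).comp (cp2 (s.lf i) V3)).pb Y k))
      (fc (((q i).comp (cp2 (s.lf i) V3)).pb V' k))
    exact h2.le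
  refine h1.mono_left ?_
  refine (hW.trans (ple_cop s V3 q hV n i X)).trans (PLe_of_le fun k => ?_)
  show fc (F := (rsp W n).F k) ((oo s V3 q n i).pb V' k ⊓ rfr W n k) ≤ fc (rfr W n k) ⊔ fc ((oo s V3 q n i).pb V' k)
  rw [fc_inf]
  exact le_of_eq (sup_comm _ _)

end cps

end

end Pool.Agent.Helper87.NJ
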