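import Pool.Agent.Helper87.NJ.Axs

/-! NSLJ, assembly, part 2: exponents; carriers over a label with a full form. -/

set_option autoImplicit false

namespace Pool.Agent.Helper87.NJ

open Finset Filter Topology Matrix Pool.Agent.Helper69.RK Pool.Agent.Helper31.EC Pool.Agent.Helper31.EC.Sp
open Pool.Agent.Helper40.EL Pool.Agent.Helper89.LX Pool.Agent.Helper84.MT
open Pool.Agent.Helper36.AM (MCl STu STO)
open Pool.Agent.Helper3.LF (Mon)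
open Pool.Agent.Helper38.NSL (NI NHEt gxF NI_of_PLe PLe_pull)
open Pool.Agent.Helper29.MX
open Pool.Agent.Helper66.NJ (Kn1 zFD)
open Pool.Agent.Helper87.NSL (FmG CostP)
open Pool.Agent.Helper76.ADP (RowsF rsp rpj rfr)
open Pool.Agent.Helper76.THK (e00)
open Pool.Agent.Helper80.SUB (Sub ptop)
open Pool.Agent.Helper15.FST (gam JT Ful)

noncomputable section

variable {S T : Sp} {M N D g r : ℕ} {E : ℕ → ℕ} {ι : Type}

/-! ### exponents -/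

theorem exps_small {v : ℕ} {w : Fin N → ℝ} (h0 : ∀ j, 0 ≤ w j) {ε δ : ℝ} (hδ0 : 0 ≤ δ)
    (hδ : (N + 1) * δ < ε) (hasc : ∀ i j, i ≤ j → w i ≤ w j + δ)
    (hs : (v + 1) * ε - δ ≤ ∑ j, max (ε - w j) 0) (j : Fin N) (hj : (j : ℕ) < v + 1) : w j ≤ ε := by
  by_contra hc
  push Not at hc
  have hε : 0 < ε := lt_of_le_of_lt (by positivity) hδ
  have h1 : ∑ i, max (ε - w i) 0 ≤ ∑ i : Fin N, ((if i < j then ε else 0) + δ) := by
    refine Finset.sum_le_sum fun i _ => ?_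
    by_cases hi : i < j
    · rw [if_pos hi]
      refine max_le ?_ ?_
      · have := h0 i
        linarith
      · linarith
    · rw [if_neg hi]
      have h2 := hasc j i (not_lt.mp hi)
      refine max_le ?_ ?_
      · linarith
      · linarith
  have h3 : ∑ i : Fin N, ((if i < j then ε else 0) + δ) = (j : ℕ) * ε + N * δ := by
    rw [Finset.sum_add_distrib, ← Finset.sum_filter, Finset.sum_const, Finset.sum_const, Finset.card_univ,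
      Fintype.card_fin, nsmul_eq_mul, nsmul_eq_mul]
    have h4 : (Finset.univ.filter fun i : Fin N => i < j).card = (j : ℕ) := by
      rw [Finset.filter_gt_eq_Iio, Fin.card_Iio]
    rw [h4]
  have h5 : ((j : ℕ) : ℝ) ≤ v := by
    have : (j : ℕ) ≤ v := by omega
    exact_mod_cast this
  have h6 : ((j : ℕ) : ℝ) * ε ≤ v * ε := mul_le_mul_of_nonneg_right h5 hε.le
  rw [h3] at h1
  nlinarith

/-- ROWS IN ALL DIRECTIONS with the profile `f` -/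
def Rw0 (f : ℝ → ℝ) (D : ℕ) (V : ∀ k, Setoid (S.F k).Ω) (Q : S.VV N) : Prop :=
  ∃ (Ex : ∀ k, (S.F k).Ω → (Fin 0 ⊕ Fin N ≃ Fin N)) (F : ∀ k, (S.F k).Ω → Fin N → MvPolynomial (Fin N) ℝ)
    (w : ∀ k, (S.F k).Ω → Fin N → ℝ), RowsF V Q D Ex F w ∧ ∀ b : ℝ, 0 ≤ b → b ≤ 1 → ∀ ε : ℝ, 0 < ε →
      Typ (S := S) fun k ω => f b - ε ≤ ∑ j, max (b - w k ω j) 0

/-- ROWS of the split `(v, q)` -/
def Rw1 (v q D : ℕ) (V : ∀ k, Setoid (S.F k).Ω) (Q : S.VV N) : Prop :=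
  ∃ (Ex : ∀ k, (S.F k).Ω → (Fin v ⊕ Fin q ≃ Fin N)) (F : ∀ k, (S.F k).Ω → Fin q → MvPolynomial (Fin N) ℝ)
    (w : ∀ k, (S.F k).Ω → Fin q → ℝ), RowsF V Q D Ex F w

theorem Rw0.pfl (hPRW : ROW_PRW) (hD : 1 ≤ D) {f : ℝ → ℝ} {s : MSys S N (lin g) (Fin r)}
    {V U : ∀ k, Setoid (S.F k).Ω} (h : Rw0 f D V s.Q) (hU : PLe (fun k => fc (U k)) (fun k => fc (V k))) :
    Pfl f s U := by
  obtain ⟨Ex, F, w, h1, h2⟩ := h
  intro T p A hA b h0 hb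
  exact hPRW N D g r S s V U Ex F w b (f b) hD h0 hb h1 (h2 b h0 hb) hU T p A hA

theorem Rw0.fresh (hRFR : ROW_RFR) {f : ℝ → ℝ} {V : ∀ k, Setoid (S.F k).Ω} {Q : S.VV N} (h : Rw0 f D V Q) (n : ℕ) :
    Rw0 f D (fun k => (rpj S n).pb V k ⊓ rfr S n k) ((rpj S n).vv Q) := by
  obtain ⟨Ex, F, w, h1, h2⟩ := h
  refine ⟨fun k ω => Ex k ((rpj S n).π k ω), fun k ω => F k ((rpj S n).π k ω), fun k ω => w k ((rpj S n).π k ω),
    hRFR N 0 N D n S V Q Ex F w h1, fun b h0 hb ε hε => ?_⟩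
  have h4 := Pj.typ (rpj S n) (h2 b h0 hb ε hε)
  exact h4

theorem small_tail {f : ℝ → ℝ} {v : ℕ} (hf0 : ∃ η₀ : ℝ, 0 < η₀ ∧ ∀ η : ℝ, 0 < η → η ≤ η₀ → (v + 1) * η ≤ f η)
    {w : ∀ k, (S.F k).Ω → Fin N → ℝ}
    (hw : ∀ᶠ k in UF, ∀ ω, (S.F k).μ ω ≠ 0 → ∀ j, 0 ≤ w k ω j ∧ w k ω j ≤ 1)
    (hasc : ∀ ε : ℝ, 0 < ε → Typ (S := S) fun k ω => ∀ i j : Fin N, i ≤ j → w k ω i ≤ w k ω j + ε)
    (hs : ∀ b : ℝ, 0 ≤ b → b ≤ 1 → ∀ ε : ℝ, 0 < ε → Typ (S := S) fun k ω => f b - ε ≤ ∑ j, max (b - w k ω j) 0)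
    (ε : ℝ) (hε : 0 < ε) : Typ (S := S) fun k ω => ∀ j : Fin N, (j : ℕ) < v + 1 → w k ω j ≤ ε := by
  obtain ⟨η₀, h1, h2⟩ := hf0
  set η : ℝ := min ε (min η₀ 1) with hη
  have hη0 : 0 < η := lt_min hε (lt_min h1 one_pos)
  have hη1 : η ≤ 1 := (min_le_right _ _).trans (min_le_right _ _)
  have hη2 : η ≤ η₀ := (min_le_right _ _).trans (min_le_left _ _)
  have hδ : 0 < η / (2 * (N + 1)) := by positivity
  refine ((hasc _ hδ).and (hs η hη0.le hη1 _ hδ)).mono ?_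
  filter_upwards [hw] with k hk ω hω hh j hj
  have hle : η ≤ ε := min_le_left _ _
  refine (exps_small (v := v) (ε := η) (δ := η / (2 * (N + 1))) (fun j => (hk ω hω j).1) hδ.le ?_ hh.1 ?_ j hj).trans
    hle
  · have e1 : ((N : ℝ) + 1) * (η / (2 * (N + 1))) = η / 2 := by field_simp
    rw [e1]
    linarith
  · have := h2 η hη0 hη2
    exact (sub_le_sub_right this _).trans hh.2

/-- ROWS FOR BOTH SPLITS from a full form -/
theorem fdgc (hFDG : ROW_FDG N) (hPTW : ROW_PTW) (hST : ∀ m, m < N → STu m) {s : MSys S N (lin g) (Fin r)}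
    {V : ∀ k, Setoid (S.F k).Ω} {G : ∀ k, (S.F k).Ω → Matrix (Mon N D) (Mon N D) ℝ} (hD : 1 ≤ D)
    (hF : Fuf V s.Q D G) {f : ℝ → ℝ} (hf : Pfl f s V) {v q : ℕ} (hvq : v + 1 + q = N)
    (hf0 : ∃ η₀ : ℝ, 0 < η₀ ∧ ∀ η : ℝ, 0 < η → η ≤ η₀ → (v + 1) * η ≤ f η) :
    ∃ (T : Sp) (p : Pj T S) (W : ∀ k, Setoid (T.F k).Ω) (D' : ℕ), (∀ k, W k ≤ p.pb V k) ∧
      PLe (fun k => fc (W k)) (fun k => fc (p.pb V k)) ∧ 1 ≤ D' ∧ Rw0 f D' W (p.vv s.Q) ∧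
        Rw1 (v + 1) q D' W (p.vv s.Q) := by
  obtain ⟨T, p, W, D', o, w, h1, h2, h3, h4, h5⟩ := hFDG hST S V s.Q D G hD hF
  obtain ⟨F0, h6⟩ := h5 0 N (Nat.zero_add N) (fun ε _ => by
    refine Pool.Agent.Helper66.MT.typ_true.mono (Eventually.of_forall fun k ω _ _ j => j.elim0))
  set Ex0 : ∀ k, (T.F k).Ω → (Fin 0 ⊕ Fin N ≃ Fin N) := fun k ω => (e00 (Nat.zero_add N)).trans (o k ω) with hEx0
  have e0 : ∀ j : Fin N, e00 (Nat.zero_add N) (Sum.inr j) = j := by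
    intro j
    apply Fin.ext
    show (Fin.natAdd 0 j).1 = j.1
    simp
  have e1 : ∀ k ω, (fun j => w k ω (e00 (Nat.zero_add N) (Sum.inr j))) = w k ω := by
    intro k ω
    funext j
    rw [e0]
  have h7 : ∀ b : ℝ, 0 ≤ b → b ≤ 1 → ∀ ε : ℝ, 0 < ε → Typ (S := T) fun k ω => f b - ε ≤ ∑ j, max (b - w k ω j) 0 := by
    intro b h0 hb ε hε
    have h8 := hPTW N D' g r S T s V p W _ F0 _ b (f b) h3 h0 hb (fun T' p' A hA => hf T' p' A hA b h0 hb) h1 h2 h6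
      ε hε
    refine h8.mono (Eventually.of_forall fun k ω _ h => ?_)
    rw [← e1 k ω]
    exact h
  have hw : ∀ᶠ k in UF, ∀ ω, (T.F k).μ ω ≠ 0 → ∀ j, 0 ≤ w k ω j ∧ w k ω j ≤ 1 := by
    filter_upwards [h6.w01] with k hk ω hω j
    have h9 := hk ω hω j
    rw [e0] at h9
    exact h9
  obtain ⟨F1, h10⟩ := h5 (v + 1) q hvq (fun ε hε => by
    refine (small_tail hf0 hw h4 h7 ε hε).mono (Eventually.of_forall fun k ω _ h j => ?_)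
    refine h _ ?_
    show (Fin.castAdd q j).1 < v + 1
    exact j.2)
  refine ⟨T, p, W, D', h1, h2, h3, ⟨_, F0, _, h6, fun b h0 hb ε hε => ?_⟩, ⟨_, F1, _, h10⟩⟩
  refine (h7 b h0 hb ε hε).mono (Eventually.of_forall fun k ω _ h => ?_)
  show f b - ε ≤ ∑ j, max (b - (fun j => w k ω (e00 (Nat.zero_add N) (Sum.inr j))) j) 0
  rw [e1]
  exact h

/-- **CARRIERS over a label with a full form** -/
theorem carr (hFDG : ROW_FDG N) (hPTW : ROW_PTW) (hPRW : ROW_PRW) (hRFR : ROW_RFR) (hMEM : ROW_MEM) (hCAR : ROW_CAR N)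
    {A : MCl N} (hA : OkA N A) (hST : ∀ m, m < N → STu m) {v q : ℕ} (hvq : v + 1 + q = N)
    (hSTO : STO N (Cv A (v + 1))) (hr : 0 < r) {s : MSys S N (lin g) (Fin r)} (hs : A S g r s) (hlt : Lt s)
    {V : ∀ k, Setoid (S.F k).Ω} (hlk : ∀ i, Nul S fun k => ((Lab.ofZ V) k).leak ((s.lf i).win 0 k))
    {G : ∀ k, (S.F k).Ω → Matrix (Mon N D) (Mon N D) ℝ} (hD : 1 ≤ D) (hF : Fuf V s.Q D G) {f : ℝ → ℝ}
    (hf : Pfl f s V) (hf0 : ∃ η₀ : ℝ, 0 < η₀ ∧ ∀ η : ℝ, 0 < η → η ≤ η₀ → (v + 1) * η ≤ f η) :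
    ∃ (T : Sp) (P : Pj T S) (g' D₁ : ℕ) (W : Rsl T), 1 ≤ g' ∧ 1 ≤ D₁ ∧ PO (s.pull P) W ∧
      LvC W (s.pull P).Q g' D₁ ∧ Pfl f (s.pull P) W := by
  obtain ⟨T, p, W1, D', h1, h2, h3, h4, Ex, F, w, h5⟩ := fdgc hFDG hPTW hST hD hF hf hvq hf0
  have hV : Axl s p (fun _ : Fin r => W1) := ⟨fun j => by
    refine NI_of_PLe (h2.trans ?_)
    have h6 := PLe_pull (ple_of_lk (hlk j)) p
    exact h6⟩
  obtain ⟨g', D₁, W, hg', hD₁, hPO, hLv, -, hW⟩ := auxs hMEM hCAR hA hST hvq hSTO hr h3 hs hlt hV (Ex := fun _ => Ex)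
    (f := fun _ => F) (w := fun _ => w) (fun _ => h5)
  refine ⟨rsp T q, (rpj T q).comp p, g', D₁, W, hg', hD₁, hPO, hLv, ?_⟩
  exact (h4.fresh hRFR q).pfl hPRW h3 (s := s.pull ((rpj T q).comp p)) (hW ⟨0, hr⟩)

end

end Pool.Agent.Helper87.NJ
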