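import Pool.Agent.Helper87.NJ.Stp

/-! NSLJ, assembly, part 6: the closing step. -/

set_option autoImplicit false

namespace Pool.Agent.Helper87.NJ

open Finset Filter Topology Matrix Pool.Agent.Helper69.RK Pool.Agent.Helper31.EC Pool.Agent.Helper31.EC.Sp
open Pool.Agent.Helper40.EL Pool.Agent.Helper89.LX Pool.Agent.Helper84.MT
open Pool.Agent.Helper36.AM (MCl STu STO)
open Pool.Agent.Helper3.LF (Mon)
open Pool.Agent.Helper38.NSL (NI NHEt gxF NI_of_PLe PLe_pull Pjn wn optW C3 C3_nonneg)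
open Pool.Agent.Helper29.MX
open Pool.Agent.Helper66.NJ (Kn1 zFD)
open Pool.Agent.Helper87.NSL (FmG CostP)
open Pool.Agent.Helper76.ADP (RowsF rsp rpj rfr rfr_I)
open Pool.Agent.Helper80.SUB (Sub ptop)
open Pool.Agent.Helper15.FST (gam JT Ful NHb)
open Pool.Agent.Helper81.CP2 (cLb cLb_leak' joint_indep)
open Pool.Agent.Helper81.CPY (pjb cpl wnC wnC_iff amv_eq amv_base)
open Pool.Agent.Helper13.FST (gW H_gW gW_UB gW_nonneg gW_event)
open Pool.Agent.Helper52.SL (cellv_chg)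

noncomputable section

variable {S T W : Sp} {M N D g r : ℕ} {E : ℕ → ℕ} {ι : Type}

/-- large exponents at one level -/
theorem gxl_lev (hG : ROW_GXL) {s : MSys T N (lin g) (Fin r)} {Wf : Rsl T} {g' : ℕ} {b : ℝ} {h0 : 0 < b} (h1 : b ≤ 1)
    {GW : ∀ k, (T.F k).Ω → Matrix (Mon N D) (Mon N D) ℝ} (hL : Lvl Wf s.Q g' D b h0 GW) {a c : ℝ}
    (hc : H (up1 (Lab.ofZ Wf) (s.Q.dg b)) / b ≤ c) {f : ℝ → ℝ} (hf : Pfl f s Wf) (ha : a ≤ f b / b) {η : ℝ}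
    (hη : 0 < η) : ∀ᶠ k in UF, (T.F k).pb (fun w => ¬ N - (2 * c - a) - η ≤
      gxF (F := (T.chg T.tr b h0).F k) ((s.Q.chg T.tr b h0).v k) (GW k) w) ≤ 1 / 2 := by
  obtain ⟨r', τ, hQ, hK, -, hFm, hv⟩ := hL
  rw [hQ] at hFm hv
  have a1 := hG N D (T.chg T.tr b h0) (s.Q.chg T.tr b h0) Wf GW a c hK hFm hv ?_ ?_ η hη
  · exact a1
  · rw [H_chgQ]
    exact hc
  · intro A hA
    have a2 := hf T (Pj.id T) A hA b h0.le h1
    have a3 := H_chgQ (S := Sp.im (Pj.id T) A) ((s.im (Pj.id T) A hA).Q) Wf h0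
    have a4 : f b / b ≤ H (up1 (Lab.ofZ (S := Sp.im (Pj.id T) A) Wf) ((s.im (Pj.id T) A hA).Q.dg b)) / b :=
      div_le_div_of_nonneg_right a2 h0.le
    rw [← a3] at a4
    exact ha.trans a4

/-- **THE STEP** -/
theorem step (hR : Rws N) {A : MCl N} {C : ℕ → MCl N} (hC : Okc N A C) (hST : ∀ m, m < N → STu m) {v q : ℕ}
    (hvq : v + 1 + q = N) (hSTO : STO N (Cv A (v + 1))) {m g r e0 : ℕ} {E : Fin N → ℝ} {d : ℝ} (hg : 1 ≤ g)
    (hr : 0 < r) (hE : ∀ j, 0 ≤ E j ∧ E j < 1) {ρ : ℝ} {κ : ℕ} (hρ0 : 0 ≤ ρ) (hρ1 : ρ < 1)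
    (hk : κ < Pool.Agent.Helper84.NJ.kap E ρ)
    (hf0 : ∃ η₀ : ℝ, 0 < η₀ ∧ ∀ η : ℝ, 0 < η → η ≤ η₀ → (v + 1) * η ≤ pf E ρ κ η)
    (hmax : ∀ (S : Sp) (s : MSys S N (lin g) (Fin r)) (V : Rsl S), Ob (C m) v g r e0 E d S s V →
      ¬ Pfl (pf E ρ ((κ : ℝ) + 1)) s V)
    {s : MSys S N (lin g) (Fin r)} {V : Rsl S} (ho : Ob (C m) v g r e0 E d S s V) (hf : Pfl (pf E ρ κ) s V) :
    False := by
  obtain ⟨D0, G0, hD0, hF0⟩ := ho.po.full
  obtain ⟨S2, P1, gV, DV, V1, hgV, hDV, hPO1, hLv1, hf1⟩ := carr hR.fdg hR.ptw hR.prw hR.rfr hR.mem hR.car hC.oA hST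
    hvq hSTO hr (hC.le m _ _ _ _ ho.jt.cl) ho.lt ho.po.lk hD0 hF0 hf hf0
  have jt2 : JT (C m) v g r e0 E d S2 (s.pull P1) := (hR.jti A C hC m v g r e0 E d S s hg hr ho.jt S2 P1).1
  have lt2 : Lt (s.pull P1) := pt_pull ho.lt P1
  obtain ⟨s2, hs2⟩ : ∃ s2, s2 = s.pull P1 := ⟨_, rfl⟩
  rw [← hs2] at hPO1 hLv1 hf1 jt2 lt2
  obtain ⟨D2, G2, hD2, hF2⟩ := hPO1.full
  obtain ⟨T, p3, V3, D3, hle, hple, hD3, hr0, hr1⟩ := fdgc hR.fdg hR.ptw hST hD2 hF2 hf1 hvq hf0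
  have jt3 : JT (C m) v g r e0 E d T (s2.pull p3) := (hR.jti A C hC m v g r e0 E d S2 s2 hg hr jt2 T p3).1
  have lt3 : Lt (s2.pull p3) := pt_pull lt2 p3
  have hlk3 : ∀ i, Nul T fun k => ((Lab.ofZ V3) k).leak (((s2.pull p3).lf i).win 0 k) := by
    intro i
    have a1 : PLe (fun k => fc (V3 k)) (((s2.lf i).win 0).pull p3) :=
      hple.trans (PLe_pull (ple_of_lk (hPO1.lk i)) p3)
    have a2 : ((s2.pull p3).lf i).win 0 = ((s2.lf i).win 0).pull p3 := win_pull p3 (s2.lf i) 0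
    rw [a2]
    exact lk_of_ple a1
  have hvs3 : Nul T fun k => ((Lab.ofZ V3) k).leak (pcd (s2.pull p3).Q k) := by
    have a1 : PLe (fun k => fc (V3 k)) ((pcd s2.Q).pull p3) := hple.trans (PLe_pull hPO1.vs p3)
    have a2 : pcd (s2.pull p3).Q = (pcd s2.Q).pull p3 := pcd_pull p3 s2.Q
    rw [a2]
    exact lk_of_ple a1
  obtain ⟨W, P, qq, gW, DW, Wf, Y, hgW, hDW, hq, hPO4, hLv4, hf4, hNH, hNI, hY, hWY, hlow⟩ := copies hR hC.oA hST hvq
    hSTO hr (s := s2.pull p3) (hC.le m _ _ _ _ jt3.cl) lt3 hlk3 hvs3 hD3 hr0 hr1 (γ := gam E) jt3.nh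
  have jt4 : JT (C m) v g r e0 E d (rsp W q) ((s2.pull p3).pull ((rpj W q).comp P)) :=
    (hR.jti A C hC m v g r e0 E d T (s2.pull p3) hg hr jt3 (rsp W q) ((rpj W q).comp P)).1
  have lt4 : Lt ((s2.pull p3).pull ((rpj W q).comp P)) := pt_pull lt3 _
  have ob4 : Ob (C m) v g r e0 E d (rsp W q) ((s2.pull p3).pull ((rpj W q).comp P)) Wf := ⟨jt4, lt4, hPO4⟩
  -- the profile beyond `ρ`
  have hclb := hR.clb hST (rsp W q) E ρ κ g r ((s2.pull p3).pull ((rpj W q).comp P)) Wf hE hρ0 hρ1 hPO4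
    (fun T' p' B hB b hb0 hb => jt4.dfb T' p' B hB b hb0 (hb.trans hρ1.le)) hf4
    (fun T' p' B hB => hmax _ _ _ (ob4.im hR hC hg hr p' B hB))
  -- the constants
  obtain ⟨D, hDdef⟩ : ∃ D, D = max DV DW := ⟨_, rfl⟩
  have hDV' : DV ≤ D := by rw [hDdef]; exact le_max_left _ _
  have hDW' : DW ≤ D := by rw [hDdef]; exact le_max_right _ _
  have hK0 : 0 ≤ C3 N D := C3_nonneg N D
  have hK1 : 0 < C3 N D + N + 1 := by positivity
  obtain ⟨L, hL⟩ : ∃ L : ℝ, L = ((Pool.Agent.Helper84.MT.lin gV D + Pool.Agent.Helper84.MT.lin gW D : ℕ) : ℝ) :=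
    ⟨_, rfl⟩
  have hL0 : 0 ≤ L := by rw [hL]; exact Nat.cast_nonneg _
  obtain ⟨δ, hδdef⟩ : ∃ δ : ℝ, δ = min (1 / 16) (1 / (128 * (C3 N D + N + 1) * (r * L + 1))) := ⟨_, rfl⟩
  have hrL : (0 : ℝ) < r * L + 1 := by positivity
  have hδ0 : 0 < δ := by
    rw [hδdef]
    exact lt_min (by norm_num) (by positivity)
  have hδ1 : δ ≤ 1 / 16 := by rw [hδdef]; exact min_le_left _ _
  have hδ2 : δ * (128 * (C3 N D + N + 1) * (r * L + 1)) ≤ 1 := by
    have h1 : δ ≤ 1 / (128 * (C3 N D + N + 1) * (r * L + 1)) := by rw [hδdef]; exact min_le_right _ _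
    rwa [le_div_iff₀ (by positivity)] at h1
  obtain ⟨x₀, hx₀, hx⟩ := hclb δ hδ0
  obtain ⟨r₁, hr₁, hgap⟩ := Pool.Agent.Helper84.NJ.gam_gap hk
  obtain ⟨b, hb1, hb2⟩ : ∃ b : ℚ, ρ < b ∧ (b : ℝ) < ρ + min x₀ (min r₁ (1 - ρ)) :=
    exists_rat_btwn (by
      have : 0 < min x₀ (min r₁ (1 - ρ)) := lt_min hx₀ (lt_min hr₁ (by linarith))
      linarith)
  obtain ⟨x, hxdef⟩ : ∃ x : ℝ, x = b - ρ := ⟨_, rfl⟩
  have hbx : (b : ℝ) = ρ + x := by linarith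
  have hx1 : 0 < x := by linarith
  have hx2 : x ≤ x₀ := by
    have := min_le_left x₀ (min r₁ (1 - ρ))
    linarith
  have hx3 : x ≤ r₁ := by
    have := (min_le_right x₀ (min r₁ (1 - ρ))).trans (min_le_left _ _)
    linarith
  have hx4 : ρ + x ≤ 1 := by
    have := (min_le_right x₀ (min r₁ (1 - ρ))).trans (min_le_right _ _)
    linarith
  have hb0 : (0 : ℝ) < b := by linarith
  have hble : (b : ℝ) ≤ 1 := by linarith
  have hpf : pf E ρ κ b = N * ρ - gam E ρ + κ * x := by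
    unfold pf
    rw [if_neg (not_le.mpr hb1), hxdef]
  have hup := hx x hx1 hx2 hx4
  rw [← hbx] at hup
  have hg1 : gam E (ρ + x) + x ≤ gam E ρ + (N - κ) * x := hgap x hx1.le hx3
  obtain ⟨GV, hGV⟩ := hLv1 D hDV' b hb0 hble
  obtain ⟨GW, hGW⟩ := hLv4 D hDW' b hb0 hble
  have hgx := gxl_lev hR.gxl (s := (s2.pull p3).pull ((rpj W q).comp P)) hble hGW
    (a := (N * ρ - gam E ρ + κ * x) / (ρ + x)) (c := (N * ρ - gam E ρ + (κ + δ) * x) / (ρ + x)) (by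
      rw [← hbx]
      exact div_le_div_of_nonneg_right hup hb0.le) hf4 (by rw [hpf, hbx]) (η := x / (8 * (ρ + x))) (by positivity)
  have har := arith (N := N) (K := C3 N D) (k := κ) (g₀ := gam E (ρ + x)) (gρ := gam E ρ) (c := δ) hx1 hρ0 hK0 hg1 hδ1
  refine hR.close N D g r gV gW b hb0 S2 (rsp W q) s2 V1 GV (((rpj W q).comp P).comp p3)
    (fun i => (oo (s2.pull p3) V3 qq q i).comp p3) Wf GW (C3 N D) (gam E (ρ + x) / (ρ + x))
    (x / (16 * (C3 N D + N + 1) * (ρ + x)))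
    (N - (2 * ((N * ρ - gam E ρ + (κ + δ) * x) / (ρ + x)) - (N * ρ - gam E ρ + κ * x) / (ρ + x)) - x / (8 * (ρ + x)))
    (δ * x / b) hble hr hgV hgW hK0 ?_ hPO1.lk ?_ hGV ?_ ?_ ?_ ?_ (by positivity) ?_ ?_ har ?_
  · intro i
    refine Eventually.of_forall fun k w hw => ?_
    obtain ⟨a1, a2, a3⟩ := oo_agree (s2.pull p3) V3 P qq hq q i k w hw
    have m1 := (oo (s2.pull p3) V3 qq q i).supp k w hw
    have m2 := ((rpj W q).comp P).supp k w hw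
    have a4 : ((s2.pull p3).lf i).Y.cellv 0 k ((oo (s2.pull p3) V3 qq q i).π k w) =
      ((s2.pull p3).lf i).Y.cellv 0 k (((rpj W q).comp P).π k w) := a3
    have a5 : ((s2.pull p3).lf i).Y.cellv 0 k = fun ω => (s2.lf i).Y.cellv 0 k (p3.π k ω) :=
      vv_cellv p3 (s2.lf i).Y 0 k
    rw [a5] at a4
    exact ⟨(p3.hZ k _ _ m1 m2).1 a1, a2, a4⟩
  · exact hPO4.lk
  · exact hGW
  · have h1 := hNH (fun k => p3.pb V1 k) hle b hb0 hble D
    have e1 : gam E (ρ + x) / (ρ + x) = gam E b / b := by rw [hbx]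
    rw [e1]
    exact h1
  · intro i
    have h1 := inf_le (Q := ((s2.pull p3).pull ((rpj W q).comp P)).Q)
      (V := fun k => ((oo (s2.pull p3) V3 qq q i).comp p3).pb V1 k) (Y := Y i) (Wf := Wf) (b := b) (fun k w w' h =>
        hle k (hY i k h)) (hWY i) hup (hlow i b hb0.le hble)
    have e1 : N * ρ - gam E ρ + (κ + δ) * x - pf E ρ κ b = δ * x / b * b := by
      rw [hpf, div_mul_cancel₀ _ hb0.ne']
      ring
    rw [e1] at h1
    refine le_trans (le_of_eq (ul_congr (Eventually.of_forall fun k => ?_))) h1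
    have e2 : ((s2.pull p3).pull ((rpj W q).comp P)).Q.cellv b k =
        fun w => s2.Q.cellv b k ((((rpj W q).comp P).comp p3).π k w) :=
      vv_cellv (((rpj W q).comp P).comp p3) s2.Q b k
    rw [e2]
    rfl
  · intro i
    have h1 := hNI (fun k => p3.pb V1 k) hple i (fun k => p3.pb (fun k => Setoid.ker (s2.Q.cellv b k)) k)
    have h2 := ul_of_nul h1
    have e1 : 0 ≤ δ * x / b * b := by positivity
    exact h2.le.trans e1
  · rw [div_le_one (by positivity)]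
    have h1 : (1 : ℝ) ≤ 16 * (C3 N D + N + 1) := by
      have : (0 : ℝ) ≤ N := Nat.cast_nonneg _
      linarith
    nlinarith
  · have h1 : δ * (r * L) * (128 * (C3 N D + N + 1)) ≤ 1 := by
      refine le_trans ?_ hδ2
      have h3 : δ * (128 * (C3 N D + N + 1) * (r * L + 1)) = δ * (r * L) * (128 * (C3 N D + N + 1)) +
        δ * (128 * (C3 N D + N + 1)) := by ring
      rw [h3]
      have : 0 ≤ δ * (128 * (C3 N D + N + 1)) := by positivity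
      linarith
    have e1 : (r : ℝ) * (((Pool.Agent.Helper84.MT.lin gV D + Pool.Agent.Helper84.MT.lin gW D : ℕ) : ℝ) *
        (δ * x / b)) = δ * (r * L) * (x / (ρ + x)) := by
      rw [← hL, hbx]
      ring
    have e2 : x / (16 * (C3 N D + N + 1) * (ρ + x)) / 8 = 1 / (128 * (C3 N D + N + 1)) * (x / (ρ + x)) := by
      field_simp
      ring
    rw [e1, e2]
    refine mul_le_mul_of_nonneg_right ?_ (by positivity)
    rw [le_div_iff₀ (by positivity)]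
    exact h1
  · exact hgx

end

end Pool.Agent.Helper87.NJ
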