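import Pool.Agent.Helper87.NJ.Cop
import Pool.Agent.Helper91.EXA.Tru

/-! NSLJ, assembly, part 4: information at one level, transversality at one level. -/

set_option autoImplicit false

namespace Pool.Agent.Helper87.NJ

open Finset Filter Topology Matrix Pool.Agent.Helper69.RK Pool.Agent.Helper31.EC Pool.Agent.Helper31.EC.Sp
open Pool.Agent.Helper40.EL Pool.Agent.Helper89.LX Pool.Agent.Helper84.MT
open Pool.Agent.Helper36.AM (MCl STu STO)
open Pool.Agent.Helper3.LF (Mon)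
open Pool.Agent.Helper38.NSL (NI NHEt gxF NI_of_PLe PLe_pull Pjn wn optW C3)
open Pool.Agent.Helper29.MX
open Pool.Agent.Helper66.NJ (Kn1 zFD)
open Pool.Agent.Helper87.NSL (FmG CostP)
open Pool.Agent.Helper76.ADP (RowsF rsp rpj rfr rfr_I)
open Pool.Agent.Helper80.SUB (Sub ptop)
open Pool.Agent.Helper15.FST (gam JT Ful NHb)
open Pool.Agent.Helper81.CP2 (cLb cLb_leak' joint_indep)
open Pool.Agent.Helper81.CPY (pjb cpl wnC wnC_iff amv_eq amv_base)
open Pool.Agent.Helper13.FST (gW H_gW gW_UB gW_nonneg gW_event)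
open Pool.Agent.Helper52.SL (cellv_chg)

noncomputable section

variable {S T W : Sp} {M N D g r : ℕ} {E : ℕ → ℕ} {ι : Type}

/-! ### entropies -/

/-- entropies over literal labels in truncations -/
theorem H_chgQ (Q : S.VV N) (V : ∀ k, Setoid (S.F k).Ω) {b : ℝ} (h0 : 0 < b) :
    H (up1 (Lab.ofZ (S := S.chg S.tr b h0) V) ((Q.chg S.tr b h0).dg 1)) = H (up1 (Lab.ofZ V) (Q.dg b)) / b := by
  refine (H_gW (S := S.chg S.tr b h0) (Q.chg S.tr b h0) V 1).trans ?_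
  rw [H_gW]
  have t1 := (ul_tendsto (gW_UB Q V b)).div_const b
  refine ul_eq (t1.congr fun k => ?_)
  have e1 : (Q.chg S.tr b h0).cellv 1 k = Q.cellv (b * 1) k := cellv_chg Q b h0 1 k
  rw [mul_one] at e1
  have e2 := h_chg_top b h0 (F := S.F k) (Setoid.ker (Q.cellv b k)) (V k)
  have e3 : gW (S := S.chg S.tr b h0) (Q.chg S.tr b h0) V 1 k =
      Pool.Agent.Helper31.EC.h (fc (F := (S.F k).chg ⊤ b h0) (Setoid.ker ((Q.chg S.tr b h0).cellv 1 k)))
        (fc (F := (S.F k).chg ⊤ b h0) (V k)) / (b * (S.F k).n) := rfl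
  rw [e3, e1]
  refine Eq.symm ((congrArg (fun x => x / (b * (S.F k).n)) e2).trans ?_)
  show Pool.Agent.Helper31.EC.h (fc (Setoid.ker (Q.cellv b k))) (fc (V k)) / (b * (S.F k).n) =
    Pool.Agent.Helper31.EC.h (fc (Setoid.ker (Q.cellv b k))) (fc (V k)) / (S.F k).n / b
  rw [div_div, mul_comm]

/-- the profile on the space itself -/
theorem Pfl.self {f : ℝ → ℝ} {s : MSys S N E ι} {V : ∀ k, Setoid (S.F k).Ω} (h : Pfl f s V) {b : ℝ} (h0 : 0 ≤ b)
    (h1 : b ≤ 1) : f b ≤ H (up1 (Lab.ofZ V) (s.Q.dg b)) := by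
  have hA := Pool.Agent.Helper91.EXA.pos_true S
  have h2 := h S (Pj.id S) (fun _ _ => True) hA b h0 h1
  have h3 := gW_event s V b (Pj.id S) (fun _ _ => True) hA
  have h4 : ul (S.pr fun _ _ => True) = 1 := by
    rw [Pool.Agent.Helper91.EXA.pr_true S]
    exact ul_const 1
  rw [h4, one_mul] at h3
  exact h2.trans h3

/-- INFORMATION (i) -/
theorem inf_le {Q : S.VV N} {V Y Wf : ∀ k, Setoid (S.F k).Ω} {b c₀ c₁ : ℝ} (hV : ∀ k, Y k ≤ V k)
    (hW : PLe (fun k => fc (Wf k)) (fun k => fc (Y k))) (h1 : H (up1 (Lab.ofZ Wf) (Q.dg b)) ≤ c₁)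
    (h0 : c₀ ≤ H (up1 (Lab.ofZ Y) (Q.dg b))) :
    ul (fun k => I (fc (V k)) (fc (Setoid.ker (Q.cellv b k))) (fc (Wf k)) / (S.F k).n) ≤ c₁ - c₀ := by
  have hle : ∀ k, I (fc (V k)) (fc (Setoid.ker (Q.cellv b k))) (fc (Wf k)) / (S.F k).n ≤
      (gW Q Wf b k - gW Q Y b k) + Pool.Agent.Helper31.EC.h (fc (Wf k)) (fc (Y k)) / (S.F k).n := by
    intro k
    have hn := (S.F k).pos
    have a1 : I (fc (V k)) (fc (Setoid.ker (Q.cellv b k))) (fc (Wf k)) =
        Pool.Agent.Helper31.EC.h (fc (Setoid.ker (Q.cellv b k))) (fc (Wf k)) -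
          Pool.Agent.Helper31.EC.h (fc (Setoid.ker (Q.cellv b k))) (fc (V k) ⊔ fc (Wf k)) := I_eq' _ _ _
    have a2 : Pool.Agent.Helper31.EC.h (fc (Setoid.ker (Q.cellv b k))) (fc (Wf k) ⊔ fc (Y k)) ≤
        Pool.Agent.Helper31.EC.h (fc (Setoid.ker (Q.cellv b k))) (fc (V k) ⊔ fc (Wf k)) := by
      refine h_anti ?_
      rw [sup_comm (fc (Wf k)) (fc (Y k))]
      exact sup_le_sup_right (fc_mono (hV k)) _
    have a3 := h_triangle (fc (Setoid.ker (Q.cellv b k))) (fc (Wf k)) (fc (Y k))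
    have a4 : gW Q Wf b k = Pool.Agent.Helper31.EC.h (fc (Setoid.ker (Q.cellv b k))) (fc (Wf k)) / (S.F k).n := rfl
    have a5 : gW Q Y b k = Pool.Agent.Helper31.EC.h (fc (Setoid.ker (Q.cellv b k))) (fc (Y k)) / (S.F k).n := rfl
    rw [a4, a5, a1, ← sub_div, ← add_div]
    refine div_le_div_of_nonneg_right ?_ hn.le
    linarith
  have t1 : Tendsto (fun k => (gW Q Wf b k - gW Q Y b k) + Pool.Agent.Helper31.EC.h (fc (Wf k)) (fc (Y k)) /
      (S.F k).n) UF (𝓝 ((ul (gW Q Wf b) - ul (gW Q Y b)) + 0)) :=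
    ((ul_tendsto (gW_UB Q Wf b)).sub (ul_tendsto (gW_UB Q Y b))).add hW
  have hUB : UB fun k => I (fc (V k)) (fc (Setoid.ker (Q.cellv b k))) (fc (Wf k)) / (S.F k).n :=
    UB.sandwich (UB_const 0) (UB_of_tendsto t1) (Eventually.of_forall fun k =>
      div_nonneg (I_nonneg _ _ _) (S.F k).pos.le) (Eventually.of_forall hle)
  have h2 := le_of_tendsto_of_tendsto (ul_tendsto hUB) t1 (Eventually.of_forall hle)
  rw [H_gW] at h1 h0
  linarith

/-- independence as a bound of the limit -/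
theorem ul_of_nul {f : ℕ → ℝ} (h : Nul S f) : ul (fun k => f k / (S.F k).n) = 0 := ul_eq h

/-! ### the points of the copies -/

section cps

variable (s : MSys T N (lin g) (Fin r)) (V3 : ∀ k, Setoid (T.F k).Ω) (P : Pj W T)
  (q : ∀ i, Pj W (cLb (s.lf i) V3).sp)
  (hq : ∀ i k w, (W.F k).μ w ≠ 0 → (cLb (s.lf i) V3 k).p.π ((q i).π k w) = P.π k w)

include hq in
theorem oo_agree (n : ℕ) (i : Fin r) (k : ℕ) (w : ((rsp W n).F k).Ω) (hw : ((rsp W n).F k).μ w ≠ 0) :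
    (T.F k).Z ((oo s V3 q n i).π k w) (((rpj W n).comp P).π k w) ∧
      (s.lf i).La k ((oo s V3 q n i).π k w) (((rpj W n).comp P).π k w) ∧
      Setoid.ker ((s.lf i).Y.cellv 0 k) ((oo s V3 q n i).π k w) (((rpj W n).comp P).π k w) := by
  have h1 := (rpj W n).supp k w hw
  have h2 := (q i).supp k _ h1
  have h3 := cp2_agree (s.lf i) V3 k ((q i).π k ((rpj W n).π k w)) h2
  have h4 := hq i k _ h1
  rw [h4] at h3
  exact h3

/-- TRANSVERSALITY at one level -/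
theorem nh_lev {b γ : ℝ} (h0 : 0 < b) (h1 : b ≤ 1) (hn : NHb s γ b)
    (hN : ∀ (b : ℝ) (h0 : 0 < b) (M D : ℕ) (Q : (T.chg T.tr b h0).VV M) (K g₀ : ℝ) (κ : Type)
      (U : κ → ∀ k, Setoid (T.F k).Ω) (C : Fin r → ∀ k, Setoid (T.F k).Ω),
      (∀ i, ∀ᶠ k in UF, (cLb (s.lf i) V3 k).leak (fc (C i k)) = 0) →
      NHEt (S := T.chg T.tr b h0) Q D (Sum.elim U C) K g₀ →
      NHEt (S := W.chg W.tr b h0) ((pjb P T.tr b h0).vv Q) D (Sum.elim (fun i => P.pb (U i))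
        (fun i k => (q i).pb (cLb (s.lf i) V3).V k ⊓ P.pb (C i) k)) K g₀)
    {V' : ∀ k, Setoid (T.F k).Ω} (hV : ∀ k, V3 k ≤ V' k) {n : ℕ} {Wf : ∀ k, Setoid ((rsp W n).F k).Ω}
    (hW : ∀ᶠ k in UF, vis (s.pull ((rpj W n).comp P)).Q k ⊓ ((rsp W n).F k).Z ≤ Wf k) (D : ℕ) :
    NHEt (S := (rsp W n).chg (rsp W n).tr b h0) ((((rpj W n).comp P).vv s.Q).chg (rsp W n).tr b h0) D
      (Sum.elim (fun _ : Unit => Wf) fun i => (oo s V3 q n i).pb V') (C3 N D) (γ / b) := by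
  have a1 := hn h0 h1 D
  have a2 : NHEt (S := T.chg T.tr b h0) (s.Q.chg T.tr b h0) D
      (Sum.elim (fun _ : Unit => rbot T) fun i k => (s.lf i).La k ⊓ Setoid.ker ((s.lf i).Y.cellv 0 k))
      (C3 N D) (γ / b) := by
    refine a1.ren (fun o => match o with | none => Sum.inl () | some i => Sum.inr i)
      (Eventually.of_forall fun k o ω ω' _ _ _ hw => ?_)
    rcases o with _ | i
    · exact hw
    · have e2 : ((s.lf i).Y.chg T.tr b h0).cellv 0 k = (s.lf i).Y.cellv 0 k := by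
        rw [cellv_chg, mul_zero]
      have e3 : wn (s.trn b h0 h1) 0 i k = (s.lf i).La k ⊓ Setoid.ker ((s.lf i).Y.cellv 0 k) :=
        congrArg (fun f => (s.lf i).La k ⊓ Setoid.ker f) e2
      have hw' : wn (s.trn b h0 h1) 0 i k ω ω' := hw
      rw [e3] at hw'
      exact hw'
  have a3 := hN b h0 N D (s.Q.chg T.tr b h0) (C3 N D) (γ / b) Unit (fun _ => rbot T)
    (fun i k => (s.lf i).La k ⊓ Setoid.ker ((s.lf i).Y.cellv 0 k))
    (fun i => Eventually.of_forall fun k => cLb_leak' (s.lf i) V3 k) a2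
  have a4 := a3.pull (pjb (rpj W n) W.tr b h0)
  refine a4.ren (fun o => o) ?_
  filter_upwards [hW] with k hk o ω ω' c1 c2 hz hw
  rcases o with u | i
  · refine hk ⟨?_, hz.2⟩
    have h2 : P.π k ((rpj W n).π k ω) = P.π k ((rpj W n).π k ω') := hw
    show (((rpj W n).comp P).vv s.Q).cellv 1 k ω = (((rpj W n).comp P).vv s.Q).cellv 1 k ω'
    rw [vv_cellv]
    exact congrArg (fun x => s.Q.cellv 1 k x) h2
  · have h2 : V3 k ((oo s V3 q n i).π k ω) ((oo s V3 q n i).π k ω') := hw.1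
    exact hV k h2

end cps

end

end Pool.Agent.Helper87.NJ
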