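import Pool.Agent.Helper87.NJ.Lev
import Pool.Agent.Helper84.NJ.Sel
import Pool.Agent.Helper80.SUB.Sim

/-! NSLJ, assembly, part 5: the step. -/

set_option autoImplicit false

namespace Pool.Agent.Helper87.NJ

open Finset Filter Topology Matrix Pool.Agent.Helper69.RK Pool.Agent.Helper31.EC Pool.Agent.Helper31.EC.Sp
open Pool.Agent.Helper40.EL Pool.Agent.Helper89.LX Pool.Agent.Helper84.MT
open Pool.Agent.Helper36.AM (MCl STu STO)
open Pool.Agent.Helper3.LF (Mon)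
open Pool.Agent.Helper38.NSL (NI NHEt gxF NI_of_PLe PLe_pull Pjn wn optW C3 C3_nonneg)
open Pool.Agent.Helper29.MX
open Pool.Agent.Helper66.NJ (Kn1 zFD)
open Pool.Agent.Helper87.NSL (FmG CostP)
open Pool.Agent.Helper76.ADP (RowsF rsp rpj rfr rfr_I)
open Pool.Agent.Helper80.SUB (Sub ptop)
open Pool.Agent.Helper15.FST (gam JT Ful NHb)
open Pool.Agent.Helper81.CP2 (cLb cLb_leak' joint_indep)
open Pool.Agent.Helper81.CPY (pjb cpl wnC wnC_iff amv_eq amv_base)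
open Pool.Agent.Helper13.FST (gW H_gW gW_UB gW_nonneg gW_event)
open Pool.Agent.Helper52.SL (cellv_chg)

noncomputable section

variable {S T W : Sp} {M N D g r : ℕ} {E : ℕ → ℕ} {ι : Type}

/-- all rows -/
structure Rws (N : ℕ) : Prop where
  fdg : ROW_FDG N
  fui : ROW_FUI
  rfr : ROW_RFR
  rfo : ROW_RFO
  mem : ROW_MEM
  clb : ROW_CLB N
  car : ROW_CAR N
  close : ROW_CLOSE
  ptw : ROW_PTW
  prw : ROW_PRW
  gxl : ROW_GXL
  zer : ROW_ZER N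
  rdj : ROW_RDJ N
  jti : ROW_JTI N

/-- OBJECTS -/
structure Ob (C : MCl N) (v g r e0 : ℕ) (E : Fin N → ℝ) (d : ℝ) (S : Sp) (s : MSys S N (lin g) (Fin r))
    (V : Rsl S) : Prop where
  jt : JT C v g r e0 E d S s
  lt : Lt s
  po : PO s V

theorem PO.im (hFUI : ROW_FUI) {s : MSys S N (lin g) (Fin r)} {V : Rsl S} (h : PO s V) (p : Pj T S)
    (A : ∀ k, (T.F k).Ω → Prop) (hA : 0 < ul (T.pr A)) : PO (s.im p A hA) V := by
  have a0 : TLb s 0 (Lab.ofZ V) := h.lk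
  have a1 : TLb (s.im p A hA) 0 (Lab.ofZ (S := Sp.im p A) V) := Pool.Agent.Helper13.FST.tlb_ofZ_im a0 p A hA
  have a2 : PLe (S := Sp.im p A) (Part.im p A (fun k => fc (V k))) ((pcd s.Q).im p A) :=
    Pool.Agent.Helper80.SUB.PLe_im' p A hA h.vs
  obtain ⟨D, G, hD, hG⟩ := h.full
  have a3 : ∃ D G, 1 ≤ D ∧ Fuf (S := Sp.im p A) V (s.Q.im p A) D G := ⟨D, G, hD, hFUI N D S T V s.Q G p A hA hG⟩
  exact ⟨a1, a2, a3⟩

theorem Ob.im {A : MCl N} {C : ℕ → MCl N} (hR : Rws N) (hC : Okc N A C) {m v e0 : ℕ} {E : Fin N → ℝ} {d : ℝ}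
    (hg : 1 ≤ g) (hr : 0 < r) {s : MSys S N (lin g) (Fin r)} {V : Rsl S} (h : Ob (C m) v g r e0 E d S s V)
    (p : Pj T S) (B : ∀ k, (T.F k).Ω → Prop) (hB : 0 < ul (T.pr B)) :
    Ob (C m) v g r e0 E d (Sp.im p B) (s.im p B hB) V where
  jt := (hR.jti A C hC m v g r e0 E d S s hg hr h.jt T p).2 B hB
  lt := by
    exact Pool.Agent.Helper52.MW.Pt_im (R := vis s.Q) h.lt p B hB
  po := h.po.im hR.fui p B hB

/-! ### the closing arithmetic -/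

/-- the number of [GXL] beats the threshold -/
theorem arith {N : ℕ} {ρ x K c k g₀ gρ : ℝ} (hx : 0 < x) (hρ : 0 ≤ ρ) (hK : 0 ≤ K) (hgap : g₀ + x ≤ gρ + (N - k) * x)
    (hc : c ≤ 1 / 16) : 8 * (K + N + 1) * (x / (16 * (K + N + 1) * (ρ + x))) + g₀ / (ρ + x) <
      N - (2 * ((N * ρ - gρ + (k + c) * x) / (ρ + x)) - (N * ρ - gρ + k * x) / (ρ + x)) - x / (8 * (ρ + x)) := by
  have hb : 0 < ρ + x := by linarith
  have hK1 : 0 < K + N + 1 := by positivity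
  have e1 : 8 * (K + N + 1) * (x / (16 * (K + N + 1) * (ρ + x))) = x / 2 / (ρ + x) := by
    field_simp
    ring
  have e2 : (N : ℝ) - (2 * ((N * ρ - gρ + (k + c) * x) / (ρ + x)) - (N * ρ - gρ + k * x) / (ρ + x)) -
      x / (8 * (ρ + x)) = (gρ + (N - k) * x - 2 * c * x - x / 8) / (ρ + x) := by
    field_simp
    ring
  rw [e1, e2, ← add_div]
  refine div_lt_div_of_pos_right ?_ hb
  nlinarith

/-! ### the copies over a system with a label with rows -/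

/-- COPIES AND THE AUXILIARY LABEL: `s` over `T`, `V3` with rows of the split `(v + 1, q)` and rows in all directions with
the profile `f` -/
theorem copies (hR : Rws N) {A : MCl N} (hA : OkA N A) (hST : ∀ m, m < N → STu m) {v q : ℕ} (hvq : v + 1 + q = N)
    (hSTO : STO N (Cv A (v + 1))) (hr : 0 < r) {s : MSys T N (lin g) (Fin r)} (hs : A T g r s) (hlt : Lt s)
    {V3 : ∀ k, Setoid (T.F k).Ω} (hlk : ∀ i, Nul T fun k => ((Lab.ofZ V3) k).leak ((s.lf i).win 0 k))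
    (hvs : Nul T fun k => ((Lab.ofZ V3) k).leak (pcd s.Q k)) (hD : 1 ≤ D) {f : ℝ → ℝ} (h0 : Rw0 f D V3 s.Q)
    (h1 : Rw1 (v + 1) q D V3 s.Q) {γ : ℝ → ℝ} (hn : ∀ b : ℝ, 0 < b → b ≤ 1 → NHb s (γ b) b) :
    ∃ (W : Sp) (P : Pj W T) (qq : ∀ i, Pj W (cLb (s.lf i) V3).sp) (g' D₁ : ℕ) (Wf : Rsl (rsp W q))
      (Y : Fin r → Rsl (rsp W q)), 1 ≤ g' ∧ 1 ≤ D₁ ∧
      (∀ i k w, (W.F k).μ w ≠ 0 → (cLb (s.lf i) V3 k).p.π ((qq i).π k w) = P.π k w) ∧
      PO (s.pull ((rpj W q).comp P)) Wf ∧ LvC Wf (s.pull ((rpj W q).comp P)).Q g' D₁ ∧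
      Pfl f (s.pull ((rpj W q).comp P)) Wf ∧
      (∀ (V' : ∀ k, Setoid (T.F k).Ω), (∀ k, V3 k ≤ V' k) → ∀ (b : ℝ) (h0 : 0 < b), b ≤ 1 → ∀ D : ℕ,
        NHEt (S := (rsp W q).chg (rsp W q).tr b h0) ((((rpj W q).comp P).vv s.Q).chg (rsp W q).tr b h0) D
          (Sum.elim (fun _ : Unit => Wf) fun i => (oo s V3 qq q i).pb V') (C3 N D) (γ b / b)) ∧
      (∀ (V' : ∀ k, Setoid (T.F k).Ω), PLe (fun k => fc (V3 k)) (fun k => fc (V' k)) →
        ∀ (i : Fin r) (Z : ∀ k, Setoid (T.F k).Ω), NI (S := rsp W q) (fun k => fc (Wf k))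
          (fun k => fc ((oo s V3 qq q i).pb Z k)) (fun k => fc ((oo s V3 qq q i).pb V' k))) ∧
      (∀ i k, Y i k ≤ (oo s V3 qq q i).pb V3 k) ∧
      (∀ i, PLe (fun k => fc (Wf k)) (fun k => fc (Y i k))) ∧
      ∀ i (b : ℝ), 0 ≤ b → b ≤ 1 → f b ≤ H (up1 (Lab.ofZ (Y i)) ((s.pull ((rpj W q).comp P)).Q.dg b)) := by
  obtain ⟨W, P, qq, hq, hN⟩ := exists_cpb r (fun i => cLb (s.lf i) V3)
  have c0 := fun i => h0.copy hR.rfo hD (s.lf i) P (qq i) (hq i) (hlk i) hvs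
  have c1 := fun i => h1.copy hR.rfo hvq hD (s.lf i) P (qq i) (hq i) (hlk i) hvs
  choose n0 X0 r0 using c0
  choose n1 X1 Ex F w r1 using c1
  have hax := axl_cop s V3 P qq hq X1
  obtain ⟨g', D₁, Wf, hg', hD₁, hPO, hLv, hvis, hW⟩ := auxs hR.mem hR.car hA hST hvq hSTO hr hD hs hlt hax r1
  set Y : Fin r → Rsl (rsp W q) := fun i k =>
    (rpj W q).pb (fun k => (qq i).pb (cLb (s.lf i) V3).V k ⊓ Setoid.ker (X0 i k)) k ⊓ rfr W q k with hY
  have hW0 : ∀ i, PLe (S := rsp W q) (fun k => fc (Wf k)) (fun k => fc (Y i k)) := by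
    intro i
    have a1 := ple_cod (S := W) (X1 i) (fun k => (qq i).pb (cLb (s.lf i) V3).V k)
    have a2 : PLe (S := W) (fun k => fc ((qq i).pb (cLb (s.lf i) V3).V k))
        (fun k => fc ((qq i).pb (cLb (s.lf i) V3).V k ⊓ Setoid.ker (X0 i k))) :=
      PLe_of_le fun k => fc_mono inf_le_left
    have a3 := ple_fr (a1.trans a2) q
    exact (hW i).trans a3
  have hfr := fun i => (r0 i).fresh hR.rfr q
  refine ⟨W, P, qq, g', D₁, Wf, Y, hg', hD₁, hq, hPO, hLv, ?_, ?_, ?_, ?_, hW0, ?_⟩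
  · exact (hfr ⟨0, hr⟩).pfl hR.prw hD (s := s.pull ((rpj W q).comp P)) (hW0 ⟨0, hr⟩)
  · intro V' hV' b hb hb1 D
    exact nh_lev s V3 P qq hb hb1 (hn b hb hb1) hN hV' hvis D
  · intro V' hV' i Z
    exact ni_cop s V3 qq hV' q i (X1 i) (hW i) Z
  · intro i k w w' h
    exact h.1.1
  · intro i b hb0 hb1
    have a1 := (hfr i).pfl hR.prw hD (s := s.pull ((rpj W q).comp P)) (PLe.refl _)
    exact a1.self hb0 hb1

end

end Pool.Agent.Helper87.NJ
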